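import Mathlib

set_option autoImplicit false

open Set Filter Topology

/-!
# Definitions for `MP_714461_an`

`X` is a real Banach space and `φ : X → X` a map.
-/

namespace Pool.Agent.KS6_53.Gx

/-- `φ` is close to the identity: `φ - id` is Lipschitz with constant `ε`; hence (this follows, but
is included) `(1 - ε) ‖x - y‖ ≤ ‖φ x - φ y‖ ≤ (1 + ε) ‖x - y‖`, so for `ε < 1` a bijection `φ` with
this property is a Lipschitz homeomorphism. -/
def NearId {X : Type*} [NormedAddCommGroup X] (ε : ℝ) (φ : X → X) : Prop :=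
  (∀ x y : X, ‖(φ x - x) - (φ y - y)‖ ≤ ε * ‖x - y‖) ∧
  ∀ x y : X, (1 - ε) * ‖x - y‖ ≤ ‖φ x - φ y‖ ∧ ‖φ x - φ y‖ ≤ (1 + ε) * ‖x - y‖

/-- `φ` is Gateaux differentiable at `x`. -/
def GateauxAt {X : Type*} [NormedAddCommGroup X] [NormedSpace ℝ X] (φ : X → X) (x : X) : Prop :=
  ∃ A : X →L[ℝ] X, ∀ h : X,
    Tendsto (fun t : ℝ => t⁻¹ • (φ (x + t • h) - φ x)) (𝓝[≠] 0) (𝓝 (A h))

/-- The two-sided derivative of `φ` at `x` in the direction `h` exists in norm. -/
def DirDiff {X : Type*} [NormedAddCommGroup X] [NormedSpace ℝ X] (φ : X → X) (x h : X) : Prop :=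
  ∃ v : X, Tendsto (fun t : ℝ => t⁻¹ • (φ (x + t • h) - φ x)) (𝓝[≠] 0) (𝓝 v)

/-- The one-sided derivative of `φ` at `x` in the direction `h` exists in norm. -/
def RightDiff {X : Type*} [NormedAddCommGroup X] [NormedSpace ℝ X] (φ : X → X) (x h : X) : Prop :=
  ∃ v : X, Tendsto (fun t : ℝ => t⁻¹ • (φ (x + t • h) - φ x)) (𝓝[>] 0) (𝓝 v)

/-- All functionals of the one-sided difference quotients of `φ` at `x` in the direction `h`
converge: the one-sided difference quotients are weakly Cauchy. -/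
def WeakRightDiff {X : Type*} [NormedAddCommGroup X] [NormedSpace ℝ X] (φ : X → X) (x h : X) :
    Prop :=
  ∀ g : X →L[ℝ] ℝ, ∃ l : ℝ,
    Tendsto (fun t : ℝ => g (t⁻¹ • (φ (x + t • h) - φ x))) (𝓝[>] 0) (𝓝 l)

/-- All functionals of the two-sided difference quotients of `φ` at `x` in the direction `h`
converge: the two-sided difference quotients are weakly Cauchy. -/
def WeakDirDiff {X : Type*} [NormedAddCommGroup X] [NormedSpace ℝ X] (φ : X → X) (x h : X) :
    Prop :=
  ∀ g : X →L[ℝ] ℝ, ∃ l : ℝ,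
    Tendsto (fun t : ℝ => g (t⁻¹ • (φ (x + t • h) - φ x))) (𝓝[≠] 0) (𝓝 l)

/-- For every `ε > 0` there is a homeomorphism `φ` of `X` onto `X` such that `φ - id` is Lipschitz
with constant `ε`, such that neither `φ` nor its inverse is Gateaux differentiable at any point,
and such that at every point `x` the directions of differentiability form a closed subspace `V` for
which `X / V` is nonseparable: `φ` has a two-sided norm derivative at `x` along every `h ∈ V`, but
along `h ∉ V` not even the one-sided difference quotients of `φ` at `x` are weakly Cauchy. For the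
inverse of `φ` the same holds, with one-sided derivatives in norm. -/
def HasWildHomeos (X : Type*) [NormedAddCommGroup X] [NormedSpace ℝ X] : Prop :=
  ∀ ε : ℝ, 0 < ε → ∃ φ : X ≃ₜ X, NearId ε φ ∧
    (∀ x, ¬ GateauxAt φ x) ∧ (∀ y, ¬ GateauxAt φ.symm y) ∧
    (∀ x, ∃ V : Submodule ℝ X, IsClosed (V : Set X) ∧ ¬ TopologicalSpace.SeparableSpace (X ⧸ V) ∧
      ∀ h, (h ∈ V → DirDiff φ x h) ∧ (h ∉ V → ¬ WeakRightDiff φ x h)) ∧
    (∀ y, ∃ W : Submodule ℝ X, IsClosed (W : Set X) ∧ ¬ TopologicalSpace.SeparableSpace (X ⧸ W) ∧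
      ∀ k, (k ∈ W → DirDiff φ.symm y k) ∧ (k ∉ W → ¬ RightDiff φ.symm y k))

/-- The closed span of the basis vectors whose coefficient at `z` is not zero. -/
noncomputable def suppSpan {E Γ : Type*} [NormedAddCommGroup E] [NormedSpace ℝ E]
    (b : UnconditionalSchauderBasis Γ ℝ E) (z : E) : Submodule ℝ E :=
  (Submodule.span ℝ {v | ∃ γ, b.coord γ z ≠ 0 ∧ v = b γ}).topologicalClosure

/-- The lattice `L` has no weak order unit: every `u ≥ 0` is disjoint from some `v ≠ 0`. -/
def NoWeakUnit (L : Type*) [AddCommGroup L] [Lattice L] : Prop :=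
  ∀ u : L, 0 ≤ u → ∃ v : L, v ≠ 0 ∧ |v| ⊓ u = 0

section

variable {X : Type*} [NormedAddCommGroup X] [NormedSpace ℝ X] {φ : X → X} {x : X}

theorem GateauxAt.dirDiff (h : GateauxAt φ x) (k : X) : DirDiff φ x k := by
  obtain ⟨A, hA⟩ := h
  exact ⟨A k, hA k⟩

theorem DirDiff.rightDiff {k : X} (h : DirDiff φ x k) : RightDiff φ x k := by
  obtain ⟨v, hv⟩ := h
  exact ⟨v, hv.mono_left (nhdsWithin_mono (0:ℝ) (s := Ioi 0) (t := {0}ᶜ) fun t ht => ne_of_gt ht)⟩

theorem RightDiff.weak {k : X} (h : RightDiff φ x k) : WeakRightDiff φ x k := by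
  obtain ⟨v, hv⟩ := h
  exact fun g => ⟨g v, (g.continuous.tendsto v).comp hv⟩

theorem DirDiff.weak {k : X} (h : DirDiff φ x k) : WeakDirDiff φ x k := by
  obtain ⟨v, hv⟩ := h
  exact fun g => ⟨g v, (g.continuous.tendsto v).comp hv⟩

end

end Pool.Agent.KS6_53.Gx
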