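import Mathlib

set_option autoImplicit false
set_option linter.unusedSectionVars false

open Set Filter Topology

namespace Pool.Agent.KS6_53.Gx

/-! ## Unconditional sums with bounded multipliers -/

section A

variable {X : Type*} [NormedAddCommGroup X] [NormedSpace ℝ X] {Γ : Type*}

/-- If all subset sums of `c • e` over `A` are bounded by `K`, then so are, up to the factor `2`,
all sums with smaller coefficients. -/
theorem norm_sum_mul_le (e : Γ → X) (c a : Γ → ℝ) (A : Finset Γ) (K : ℝ) (hK : 0 ≤ K)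
    (hB : ∀ B ⊆ A, ‖∑ γ ∈ B, c γ • e γ‖ ≤ K) (ha : ∀ γ ∈ A, |a γ| ≤ |c γ|) :
    ‖∑ γ ∈ A, a γ • e γ‖ ≤ 2 * K := by
  classical
  refine NormedSpace.norm_le_dual_bound ℝ _ (by positivity) fun g => ?_
  rw [map_sum]
  have h1 : ‖∑ γ ∈ A, g (a γ • e γ)‖ ≤ ∑ γ ∈ A, |g (c γ • e γ)| := by
    refine (norm_sum_le _ _).trans (Finset.sum_le_sum fun γ hγ => ?_)
    rw [map_smul, map_smul, smul_eq_mul, smul_eq_mul, Real.norm_eq_abs, abs_mul, abs_mul]
    exact mul_le_mul_of_nonneg_right (ha γ hγ) (abs_nonneg _)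
  have h2 : ∑ γ ∈ A, |g (c γ • e γ)| =
      g (∑ γ ∈ A.filter (fun γ => 0 ≤ g (c γ • e γ)), c γ • e γ) -
      g (∑ γ ∈ A.filter (fun γ => ¬ 0 ≤ g (c γ • e γ)), c γ • e γ) := by
    rw [← Finset.sum_filter_add_sum_filter_not A (fun γ => 0 ≤ g (c γ • e γ)), map_sum, map_sum,
      sub_eq_add_neg, ← Finset.sum_neg_distrib]
    congr 1
    · exact Finset.sum_congr rfl fun γ hγ => abs_of_nonneg (Finset.mem_filter.1 hγ).2
    · exact Finset.sum_congr rfl fun γ hγ => abs_of_neg (not_le.1 (Finset.mem_filter.1 hγ).2)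
  have h3 : ∀ B ⊆ A, |g (∑ γ ∈ B, c γ • e γ)| ≤ ‖g‖ * K := fun B hBA =>
    (g.le_opNorm _).trans (mul_le_mul_of_nonneg_left (hB B hBA) (norm_nonneg _))
  have h4 := h3 _ (Finset.filter_subset (fun γ => 0 ≤ g (c γ • e γ)) A)
  have h5 := h3 _ (Finset.filter_subset (fun γ => ¬ 0 ≤ g (c γ • e γ)) A)
  rw [h2] at h1
  have h6 := abs_le.1 h4
  have h7 := abs_le.1 h5
  nlinarith [h6.2, h7.1]

variable [CompleteSpace X]

theorem summable_of_le (e : Γ → X) (c a : Γ → ℝ) (hs : Summable fun γ => c γ • e γ)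
    (ha : ∀ γ, |a γ| ≤ |c γ|) : Summable fun γ => a γ • e γ := by
  rw [summable_iff_vanishing_norm] at hs ⊢
  intro ε hε
  obtain ⟨s, hsε⟩ := hs (ε / 4) (by positivity)
  refine ⟨s, fun t ht => ?_⟩
  have h := norm_sum_mul_le e c a t (ε / 4) (by positivity)
    (fun B hB => (hsε B (Disjoint.mono_left hB ht)).le) (fun γ _ => ha γ)
  linarith

theorem norm_tsum_le (e : Γ → X) (c a : Γ → ℝ) (hs : Summable fun γ => c γ • e γ)
    (ha : ∀ γ, |a γ| ≤ |c γ|) (K : ℝ) (hK : 0 ≤ K) (hA : ∀ A : Finset Γ, ‖∑ γ ∈ A, c γ • e γ‖ ≤ K) :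
    ‖∑' γ, a γ • e γ‖ ≤ 2 * K := by
  have h := (summable_of_le e c a hs ha).hasSum
  refine le_of_tendsto h.norm (Eventually.of_forall fun A => ?_)
  exact norm_sum_mul_le e c a A K hK (fun B _ => hA B) (fun γ _ => ha γ)

/-- Dominated convergence for unconditional sums. -/
theorem tendsto_tsum {ι : Type*} {l : Filter ι} (e : Γ → X) (c : Γ → ℝ) (a : ι → Γ → ℝ)
    (a₀ : Γ → ℝ) (hs : Summable fun γ => c γ • e γ) (ha : ∀ i γ, |a i γ| ≤ |c γ|)
    (ha₀ : ∀ γ, |a₀ γ| ≤ |c γ|) (hlim : ∀ γ, Tendsto (fun i => a i γ) l (𝓝 (a₀ γ))) :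
    Tendsto (fun i => ∑' γ, a i γ • e γ) l (𝓝 (∑' γ, a₀ γ • e γ)) := by
  classical
  rw [Metric.tendsto_nhds]
  intro ε hε
  obtain ⟨s, hsε⟩ := summable_iff_vanishing_norm.1 hs (ε / 8) (by positivity)
  have htail : ∀ b : Γ → ℝ, (∀ γ, |b γ| ≤ |c γ|) →
      ‖∑' γ, b γ • e γ - ∑ γ ∈ s, b γ • e γ‖ ≤ ε / 4 := by
    intro b hb
    have h1 := ((summable_of_le e c b hs hb).hasSum)
    have h2 : Tendsto (fun A : Finset Γ => ∑ γ ∈ A, b γ • e γ - ∑ γ ∈ s, b γ • e γ) atTop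
        (𝓝 (∑' γ, b γ • e γ - ∑ γ ∈ s, b γ • e γ)) := Tendsto.sub_const h1 _
    refine le_of_tendsto h2.norm ?_
    filter_upwards [eventually_ge_atTop s] with A hA
    have h3 : ∑ γ ∈ A, b γ • e γ - ∑ γ ∈ s, b γ • e γ = ∑ γ ∈ A \ s, b γ • e γ := by
      rw [← Finset.sum_sdiff hA, add_sub_cancel_right]
    rw [h3]
    have h4 := norm_sum_mul_le e c b (A \ s) (ε / 8) (by positivity)
      (fun B hB => (hsε B (Disjoint.mono_left hB Finset.sdiff_disjoint)).le) (fun γ _ => hb γ)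
    linarith
  have hfin : Tendsto (fun i => ∑ γ ∈ s, a i γ • e γ) l (𝓝 (∑ γ ∈ s, a₀ γ • e γ)) :=
    tendsto_finsetSum _ fun γ _ => (hlim γ).smul_const _
  filter_upwards [Metric.tendsto_nhds.1 hfin (ε / 4) (by positivity)] with i hi
  rw [dist_eq_norm] at hi ⊢
  have h1 := htail (a i) (ha i)
  have h2 := htail a₀ ha₀
  have h3 : ∑' γ, a i γ • e γ - ∑' γ, a₀ γ • e γ =
      (∑' γ, a i γ • e γ - ∑ γ ∈ s, a i γ • e γ) + (∑ γ ∈ s, a i γ • e γ - ∑ γ ∈ s, a₀ γ • e γ)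
        - (∑' γ, a₀ γ • e γ - ∑ γ ∈ s, a₀ γ • e γ) := by abel
  rw [h3]
  calc _ ≤ ‖(∑' γ, a i γ • e γ - ∑ γ ∈ s, a i γ • e γ) +
        (∑ γ ∈ s, a i γ • e γ - ∑ γ ∈ s, a₀ γ • e γ)‖
        + ‖∑' γ, a₀ γ • e γ - ∑ γ ∈ s, a₀ γ • e γ‖ := norm_sub_le _ _
    _ ≤ ‖∑' γ, a i γ • e γ - ∑ γ ∈ s, a i γ • e γ‖ +
        ‖∑ γ ∈ s, a i γ • e γ - ∑ γ ∈ s, a₀ γ • e γ‖
        + ‖∑' γ, a₀ γ • e γ - ∑ γ ∈ s, a₀ γ • e γ‖ := by gcongr; exact norm_add_le _ _
    _ < ε := by linarith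

/-- Uniform boundedness of the partial sums. -/
theorem exists_bound (e : Γ → X) (f : Γ → X →L[ℝ] ℝ) (hs : ∀ x, Summable fun γ => f γ x • e γ) :
    ∃ C : ℝ, 0 < C ∧ ∀ (A : Finset Γ) (x : X), ‖∑ γ ∈ A, f γ x • e γ‖ ≤ C * ‖x‖ := by
  classical
  let P : Finset Γ → X →L[ℝ] X := fun A => ∑ γ ∈ A, (f γ).smulRight (e γ)
  have hP : ∀ A x, P A x = ∑ γ ∈ A, f γ x • e γ := fun A x => by
    simp [P, _root_.sum_apply, ContinuousLinearMap.smulRight_apply]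
  obtain ⟨C, hC⟩ := banach_steinhaus (g := P) (fun x => by
    obtain ⟨A₀, hA₀⟩ := summable_iff_vanishing_norm.mp (hs x) 1 zero_lt_one
    refine ⟨(A₀.powerset.image fun B ↦ ‖P B x‖).sup' ((Finset.powerset_nonempty A₀).image _) id + 1,
      fun A => ?_⟩
    have hdecomp : P A x = P (A ∩ A₀) x + P (A \ A₀) x := by
      simp only [hP]
      rw [← Finset.sum_union (Finset.disjoint_sdiff_inter A A₀).symm,
        Finset.union_comm, Finset.sdiff_union_inter]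
    rw [hdecomp]
    have htail : ‖P (A \ A₀) x‖ < 1 := by
      rw [hP]
      exact hA₀ (A \ A₀) Finset.sdiff_disjoint
    apply (norm_add_le _ _).trans (add_le_add _ htail.le)
    exact Finset.le_sup' id <| Finset.mem_image_of_mem (fun B ↦ ‖P B x‖)
      (Finset.mem_powerset.2 Finset.inter_subset_right))
  refine ⟨max C 1, lt_of_lt_of_le one_pos (le_max_right _ _), fun A x => ?_⟩
  rw [← hP]
  exact ((P A).le_opNorm x).trans (mul_le_mul_of_nonneg_right ((hC A).trans (le_max_left _ _))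
    (norm_nonneg _))

end A

end Pool.Agent.KS6_53.Gx
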