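import Pool.Agent.KS6_53.Gx.G9

set_option autoImplicit false
set_option linter.unusedSectionVars false

open Set Filter Topology

namespace Pool.Agent.KS6_53.Gx

section Lat

variable {L : Type*} [NormedAddCommGroup L] [Lattice L] [IsOrderedAddMonoid L] [HasSolidNorm L]
  [NormedSpace ℝ L] [PosSMulMono ℝ L]

theorem smul_inf_pos (s : ℝ) (hs : 0 < s) (a b : L) : s • (a ⊓ b) = (s • a) ⊓ (s • b) := by
  apply le_antisymm
  · exact le_inf (smul_le_smul_of_nonneg_left inf_le_left hs.le)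
      (smul_le_smul_of_nonneg_left inf_le_right hs.le)
  · have h1 : s⁻¹ • ((s • a) ⊓ (s • b)) ≤ a ⊓ b := by
      apply le_inf
      · have := smul_le_smul_of_nonneg_left (inf_le_left : (s • a) ⊓ (s • b) ≤ s • a)
          (inv_nonneg.2 hs.le)
        rwa [smul_smul, inv_mul_cancel₀ hs.ne', one_smul] at this
      · have := smul_le_smul_of_nonneg_left (inf_le_right : (s • a) ⊓ (s • b) ≤ s • b)
          (inv_nonneg.2 hs.le)
        rwa [smul_smul, inv_mul_cancel₀ hs.ne', one_smul] at this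
    have h2 := smul_le_smul_of_nonneg_left h1 hs.le
    rwa [smul_smul, mul_inv_cancel₀ hs.ne', one_smul] at h2

theorem abs_smul_nonneg (t : ℝ) (v : L) (hv : 0 ≤ v) : |t • v| = |t| • v := by
  rcases le_total 0 t with h | h
  · rw [abs_of_nonneg h, abs_of_nonneg (smul_nonneg h hv)]
  · rw [abs_of_nonpos h, ← abs_neg, ← neg_smul, abs_of_nonneg (smul_nonneg (by linarith) hv)]

theorem disj_smul (u v : L) (hv : 0 ≤ v) (h : |u| ⊓ v = 0) (r : ℝ) (hr : 0 ≤ r) :
    |u| ⊓ (r • v) = 0 := by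
  apply le_antisymm
  · have hs : (0:ℝ) < max r 1 := lt_of_lt_of_le one_pos (le_max_right _ _)
    have h1 : |u| ≤ (max r 1) • |u| := by
      have : (1:ℝ) • |u| ≤ (max r 1) • |u| := by
        rw [← sub_nonneg, ← sub_smul]
        exact smul_nonneg (sub_nonneg.2 (le_max_right _ _)) (abs_nonneg u)
      rwa [one_smul] at this
    have h2 : r • v ≤ (max r 1) • v := by
      rw [← sub_nonneg, ← sub_smul]
      exact smul_nonneg (sub_nonneg.2 (le_max_left _ _)) hv
    calc |u| ⊓ (r • v) ≤ ((max r 1) • |u|) ⊓ ((max r 1) • v) := inf_le_inf h1 h2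
      _ = (max r 1) • (|u| ⊓ v) := (smul_inf_pos _ hs _ _).symm
      _ = 0 := by rw [h, smul_zero]
  · exact le_inf (abs_nonneg u) (smul_nonneg hr hv)

theorem abs_add_disj (u w : L) (h : |u| ⊓ |w| = 0) : |u + w| = |u| + |w| := by
  apply le_antisymm (abs_add_le u w)
  have h1 := abs_abs_sub_abs_le u (-w)
  rw [abs_neg, sub_neg_eq_add] at h1
  have h2 := sup_sub_inf_eq_abs_sub (|w|) (|u|)
  have h3 := inf_add_sup (|u|) (|w|)
  rw [h, zero_add] at h3
  rw [inf_comm, h, sub_zero, sup_comm, h3] at h2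
  rw [h2]
  exact h1

theorem abs_add_smul (u v : L) (hv : 0 ≤ v) (h : |u| ⊓ v = 0) (t : ℝ) :
    |u + t • v| = |u| + |t| • v := by
  have h1 := abs_smul_nonneg t v hv
  rw [abs_add_disj u (t • v) (by rw [h1]; exact disj_smul u v hv h _ (abs_nonneg t)), h1]

end Lat

theorem homeo_of_lip {X : Type*} [NormedAddCommGroup X] [NormedSpace ℝ X] [CompleteSpace X]
    (G : X → X) (δ : ℝ) (hδ : 0 ≤ δ) (hδ1 : δ < 1) (hG : ∀ x y, ‖G x - G y‖ ≤ δ * ‖x - y‖) :
    ∃ φ : X ≃ₜ X, ∀ x, φ x = x + G x := by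
  have h : ApproximatesLinearOn (fun x => x + G x)
      ((ContinuousLinearEquiv.refl ℝ X : X ≃L[ℝ] X) : X →L[ℝ] X) univ ⟨δ, hδ⟩ := by
    intro x _ y _
    simp only [ContinuousLinearEquiv.coe_refl, ContinuousLinearMap.coe_id', id]
    have h2 : x + G x - (y + G y) - (x - y) = G x - G y := by abel
    rw [h2]
    exact hG x y
  have hn : Subsingleton X ∨ (⟨δ, hδ⟩ : NNReal) <
      ‖((ContinuousLinearEquiv.refl ℝ X).symm : X →L[ℝ] X)‖₊⁻¹ := by
    rcases subsingleton_or_nontrivial X with hX | hX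
    · exact Or.inl hX
    · right
      have : ‖((ContinuousLinearEquiv.refl ℝ X).symm : X →L[ℝ] X)‖₊ = 1 := by
        rw [ContinuousLinearEquiv.refl_symm, ContinuousLinearEquiv.coe_refl]
        exact ContinuousLinearMap.nnnorm_id
      rw [this, inv_one]
      exact_mod_cast hδ1
  exact ⟨h.toHomeomorph _ hn, fun x => rfl⟩

theorem kink_no_limit {X : Type*} [NormedAddCommGroup X] [NormedSpace ℝ X] (ψ : X → X) (x v : X)
    (hv : v ≠ 0) (a b : ℝ) (hab : a ≠ b)
    (hpos : ∀ t : ℝ, 0 < t → ψ (x + t • v) = ψ x + (a * t) • v)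
    (hneg : ∀ t : ℝ, t < 0 → ψ (x + t • v) = ψ x + (b * t) • v) : ¬ WeakDirDiff ψ x v := by
  intro h
  obtain ⟨g, _, hg⟩ := exists_dual_vector ℝ v (norm_ne_zero_iff.2 hv)
  have hg0 : g v ≠ 0 := by rw [hg]; simpa using hv
  obtain ⟨l, hl⟩ := h g
  have h1 := hl.mono_left (nhdsWithin_mono (0:ℝ) (s := Ioi 0) (t := {0}ᶜ) fun t ht => ne_of_gt ht)
  have h2 := hl.mono_left (nhdsWithin_mono (0:ℝ) (s := Iio 0) (t := {0}ᶜ) fun t ht => ne_of_lt ht)
  have h3 : Tendsto (fun t : ℝ => g (t⁻¹ • (ψ (x + t • v) - ψ x))) (𝓝[>] 0) (𝓝 (a * g v)) := by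
    refine tendsto_const_nhds.congr' ?_
    filter_upwards [self_mem_nhdsWithin] with t ht
    have ht' : (0:ℝ) < t := ht
    rw [hpos t ht', add_sub_cancel_left, smul_smul, map_smul, smul_eq_mul]
    have : t⁻¹ * (a * t) = a := by field_simp
    rw [this]
  have h4 : Tendsto (fun t : ℝ => g (t⁻¹ • (ψ (x + t • v) - ψ x))) (𝓝[<] 0) (𝓝 (b * g v)) := by
    refine tendsto_const_nhds.congr' ?_
    filter_upwards [self_mem_nhdsWithin] with t ht
    have ht' : t < 0 := ht
    have ht0 : t ≠ 0 := ht'.ne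
    rw [hneg t ht', add_sub_cancel_left, smul_smul, map_smul, smul_eq_mul]
    have : t⁻¹ * (b * t) = b := by field_simp
    rw [this]
  have h5 := tendsto_nhds_unique h1 h3
  have h6 := tendsto_nhds_unique h2 h4
  exact hab (mul_right_cancel₀ hg0 (h5.symm.trans h6))

/-- **Banach lattices without weak order unit.** -/
theorem partD {X L : Type*} [NormedAddCommGroup X] [NormedSpace ℝ X] [CompleteSpace X]
    [NormedAddCommGroup L] [Lattice L] [IsOrderedAddMonoid L] [HasSolidNorm L]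
    [NormedSpace ℝ L] [PosSMulMono ℝ L] (hL : NoWeakUnit L) (T : X →L[ℝ] L) (J : L →L[ℝ] X)
    (hTJ : ∀ z, T (J z) = z) (ε : ℝ) (hε : 0 < ε) :
    ∃ φ : X ≃ₜ X, NearId ε φ ∧ (∀ x, ∃ h, ¬ WeakDirDiff φ x h) ∧
      ∀ x, ∃ h, ¬ WeakDirDiff φ.symm x h := by
  set M := ‖J‖ * ‖T‖ with hM
  have hM0 : 0 ≤ M := by positivity
  set c := min (ε / (M + 1)) (1 / (2 * (M + 1))) with hc
  have hc0 : 0 < c := lt_min (by positivity) (by positivity)
  have hcε : c * M ≤ ε := by
    calc c * M ≤ ε / (M + 1) * (M + 1) := by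
          apply mul_le_mul (min_le_left _ _) (by linarith) hM0 (by positivity)
      _ = ε := by field_simp
  have hc1 : c * M < 1 := by
    have h1 : c * M ≤ 1 / (2 * (M + 1)) * (M + 1) := by
      apply mul_le_mul (min_le_right _ _) (by linarith) hM0 (by positivity)
    have h2 : 1 / (2 * (M + 1)) * (M + 1) = 1 / 2 := by field_simp
    linarith
  have hc2 : c < 1 := by
    have h1 : c ≤ 1 / (2 * (M + 1)) := min_le_right _ _
    have h2 : 1 / (2 * (M + 1)) ≤ 1 / 2 := by
      apply one_div_le_one_div_of_le (by norm_num); linarith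
    linarith
  have hG : ∀ x y, ‖c • J |T x| - c • J |T y|‖ ≤ c * M * ‖x - y‖ := by
    intro x y
    rw [← smul_sub, ← map_sub, norm_smul, Real.norm_eq_abs, abs_of_pos hc0]
    have h1 : ‖J (|T x| - |T y|)‖ ≤ ‖J‖ * (‖T‖ * ‖x - y‖) := by
      refine (J.le_opNorm _).trans (mul_le_mul_of_nonneg_left ?_ (norm_nonneg _))
      refine (norm_abs_sub_abs _ _).trans ?_
      rw [← map_sub]
      exact T.le_opNorm _
    calc c * ‖J (|T x| - |T y|)‖ ≤ c * (‖J‖ * (‖T‖ * ‖x - y‖)) := by gcongr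
      _ = c * M * ‖x - y‖ := by rw [hM]; ring
  obtain ⟨φ, hφ⟩ := homeo_of_lip (fun x => c • J |T x|) (c * M) (by positivity) hc1 hG
  have key : ∀ x, ∃ w : X, w ≠ 0 ∧ ∀ t : ℝ, φ (x + t • w) = φ x + (t + c * |t|) • w := by
    intro x
    obtain ⟨v, hv0, hv⟩ := hL |T x| (abs_nonneg _)
    refine ⟨J |v|, ?_, fun t => ?_⟩
    · intro h
      have h1 := hTJ |v|
      rw [h, map_zero] at h1
      have h2 : ‖v‖ = 0 := by rw [← norm_abs_eq_norm, ← h1, norm_zero]
      exact hv0 (norm_eq_zero.1 h2)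
    · have h1 : abs (T x + t • (|v|)) = |T x| + |t| • |v| :=
        abs_add_smul (T x) |v| (abs_nonneg _) (by rw [inf_comm]; exact hv) t
      rw [hφ, hφ, map_add, map_smul, hTJ, h1, map_add, map_smul, smul_add, add_smul, smul_smul]
      abel
  refine ⟨φ, nearId_of fun x y => ?_, fun x => ?_, fun y => ?_⟩
  · rw [hφ, hφ]
    have : x + c • J |T x| - x - (y + c • J |T y| - y) = c • J |T x| - c • J |T y| := by abel
    rw [this]
    exact (hG x y).trans (mul_le_mul_of_nonneg_right hcε (norm_nonneg _))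
  · obtain ⟨w, hw, hφw⟩ := key x
    refine ⟨w, kink_no_limit φ x w hw (1 + c) (1 - c) (by linarith) (fun t ht => ?_)
      (fun t ht => ?_)⟩
    · rw [hφw, abs_of_pos ht]; congr 2; ring
    · rw [hφw, abs_of_neg ht]; congr 2; ring
  · obtain ⟨w, hw, hφw⟩ := key (φ.symm y)
    have h1 : (1 + c) ≠ 0 := by positivity
    have h2 : (1 - c) ≠ 0 := by linarith
    refine ⟨w, kink_no_limit φ.symm y w hw (1 / (1 + c)) (1 / (1 - c)) ?_ (fun t ht => ?_)
      (fun t ht => ?_)⟩
    · intro h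
      rw [div_eq_div_iff h1 h2] at h
      linarith
    · have h3 := hφw (1 / (1 + c) * t)
      rw [abs_of_pos (by positivity), φ.apply_symm_apply] at h3
      have h4 : 1 / (1 + c) * t + c * (1 / (1 + c) * t) = t := by field_simp
      rw [h4] at h3
      rw [← h3, φ.symm_apply_apply]
    · have h3 := hφw (1 / (1 - c) * t)
      have h5 : 1 / (1 - c) * t < 0 := mul_neg_of_pos_of_neg (by
        apply div_pos one_pos; linarith) ht
      rw [abs_of_neg h5, φ.apply_symm_apply] at h3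
      have h4 : 1 / (1 - c) * t + c * -(1 / (1 - c) * t) = t := by
        field_simp
        ring
      rw [h4] at h3
      rw [← h3, φ.symm_apply_apply]

end Pool.Agent.KS6_53.Gx
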