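import Pool.Agent.KS6_53.Gx.G10

set_option autoImplicit false
set_option linter.unusedSectionVars false

open Set Filter Topology

namespace Pool.Agent.KS6_53.Gx

theorem ne_top_of_nonsep {X : Type*} [NormedAddCommGroup X] [NormedSpace ℝ X] (V : Submodule ℝ X)
    (h : ¬ TopologicalSpace.SeparableSpace (X ⧸ V)) : ∃ k, k ∉ V := by
  by_contra hn
  push Not at hn
  have : Subsingleton (X ⧸ V) := by
    rw [Submodule.Quotient.subsingleton_iff]
    exact eq_top_iff.2 fun k _ => hn k
  exact h inferInstance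

theorem wild_of_factor {X E Γ : Type*} [NormedAddCommGroup X] [NormedSpace ℝ X] [CompleteSpace X]
    [NormedAddCommGroup E] [NormedSpace ℝ E] (b : UnconditionalSchauderBasis Γ ℝ E)
    (T : X →L[ℝ] E) (J : E →L[ℝ] X)
    (hsep : ¬ TopologicalSpace.IsSeparable (Set.range fun x => J (T x))) : HasWildHomeos X := by
  intro ε hε
  obtain ⟨φ, h1, h2, h3⟩ := partA b T J hsep ε hε
  refine ⟨φ, h1, fun x hx => ?_, fun y hy => ?_, h2, h3⟩
  · obtain ⟨V, _, hV, hV'⟩ := h2 x
    obtain ⟨k, hk⟩ := ne_top_of_nonsep V hV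
    exact (hV' k).2 hk (hx.dirDiff k).rightDiff.weak
  · obtain ⟨V, _, hV, hV'⟩ := h3 y
    obtain ⟨k, hk⟩ := ne_top_of_nonsep V hV
    exact (hV' k).2 hk (hy.dirDiff k).rightDiff

/-- Nonseparable Hilbert spaces exist. -/
theorem exists_nonsep : ∃ (H : Type) (_ : NormedAddCommGroup H) (_ : InnerProductSpace ℝ H)
    (_ : CompleteSpace H), ¬ TopologicalSpace.SeparableSpace H := by
  classical
  refine ⟨lp (fun _ : ℝ => ℝ) 2, inferInstance, inferInstance, inferInstance, fun hsep => ?_⟩
  let s : ℝ → lp (fun _ : ℝ => ℝ) 2 := fun i => lp.single 2 i 1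
  have hd : ∀ i j, i ≠ j → 1 ≤ dist (s i) (s j) := by
    intro i j hij
    rw [dist_eq_norm]
    have h1 := lp.norm_apply_le_norm (by norm_num : (2 : ENNReal) ≠ 0) (s i - s j) i
    have h2 : (s i - s j) i = 1 := by
      simp only [s, lp.coeFn_sub, Pi.sub_apply, lp.single_apply_self]
      rw [lp.single_apply_ne _ _ _ hij]
      simp
    rw [h2] at h1
    simpa using h1
  have : Countable ℝ := by
    refine Pairwise.countable_of_isOpen_disjoint (s := fun i => Metric.ball (s i) (1/2))
      (fun i j hij => ?_) (fun i => Metric.isOpen_ball) (fun i => ⟨s i, by simp⟩)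
    refine Metric.ball_disjoint_ball ?_
    have := hd i j hij
    linarith
  exact not_countable (α := ℝ) this

theorem exists_basis (H : Type*) [NormedAddCommGroup H] [InnerProductSpace ℝ H] [CompleteSpace H] :
    ∃ (w : Set H), Nonempty (UnconditionalSchauderBasis w ℝ H) := by
  obtain ⟨w, b, _⟩ := exists_hilbertBasis ℝ H
  exact ⟨w, ⟨b.toUnconditionalSchauderBasis⟩⟩

theorem wild_hilbert (H : Type*) [NormedAddCommGroup H] [InnerProductSpace ℝ H] [CompleteSpace H]
    (hH : ¬ TopologicalSpace.SeparableSpace H) : HasWildHomeos H := by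
  obtain ⟨w, ⟨b⟩⟩ := exists_basis H
  refine wild_of_factor b (ContinuousLinearMap.id ℝ H) (ContinuousLinearMap.id ℝ H) ?_
  intro hs
  apply hH
  rw [← TopologicalSpace.isSeparable_univ_iff]
  have : (Set.range fun x : H => (ContinuousLinearMap.id ℝ H) ((ContinuousLinearMap.id ℝ H) x)) =
      univ := by
    ext x; simp
  rwa [this] at hs

end Pool.Agent.KS6_53.Gx
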