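import Mathlib

set_option autoImplicit false
set_option linter.unusedSectionVars false

open Set Filter Topology

namespace Pool.Agent.KS6_53.Gx

/-! ## The oscillating function -/

/-- `q ω t = t sin (ω log |t|) / 2` -/
noncomputable def q (ω t : ℝ) : ℝ := t * Real.sin (ω * Real.log t) / 2

/-- its derivative away from `0`, and `0` at `0` -/
noncomputable def q' (ω t : ℝ) : ℝ :=
  if t = 0 then 0 else (Real.sin (ω * Real.log t) + ω * Real.cos (ω * Real.log t)) / 2

theorem q_zero (ω : ℝ) : q ω 0 = 0 := by simp [q]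

theorem q_neg (ω t : ℝ) : q ω (-t) = - q ω t := by
  unfold q
  rw [Real.log_neg_eq_log]
  ring

theorem abs_q_le (ω t : ℝ) : |q ω t| ≤ |t| / 2 := by
  unfold q
  rw [abs_div, abs_mul, abs_of_pos (by norm_num : (0:ℝ) < 2)]
  have := Real.abs_sin_le_one (ω * Real.log t)
  have h2 := abs_nonneg t
  nlinarith

theorem hasDerivAt_q (ω t : ℝ) (ht : t ≠ 0) : HasDerivAt (q ω) (q' ω t) t := by
  have h1 : HasDerivAt (fun t => ω * Real.log t) (ω * t⁻¹) t := (Real.hasDerivAt_log ht).const_mul ω
  have h2 := ((hasDerivAt_id t).mul h1.sin).div_const 2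
  refine (h2.congr_deriv ?_)
  simp only [id, q', if_neg ht]
  field_simp

theorem abs_q'_le (ω t : ℝ) (h0 : 0 ≤ ω) (h1 : ω ≤ 1) : |q' ω t| ≤ 1 := by
  unfold q'
  split_ifs with h
  · simp
  · rw [abs_div, abs_of_pos (by norm_num : (0:ℝ) < 2)]
    have h2 := Real.abs_sin_le_one (ω * Real.log t)
    have h3 := Real.abs_cos_le_one (ω * Real.log t)
    have h4 : |Real.sin (ω * Real.log t) + ω * Real.cos (ω * Real.log t)| ≤ 1 + 1 := by
      refine (abs_add_le _ _).trans (add_le_add h2 ?_)
      rw [abs_mul, abs_of_nonneg h0]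
      have := abs_nonneg (Real.cos (ω * Real.log t))
      nlinarith
    linarith

theorem lip_pos (ω : ℝ) (h0 : 0 ≤ ω) (h1 : ω ≤ 1) (s t : ℝ) (hs : 0 < s) (ht : 0 < t) :
    |q ω s - q ω t| ≤ |s - t| := by
  have h := (convex_Ioi (0:ℝ)).norm_image_sub_le_of_norm_hasDerivWithin_le (f := q ω) (f' := q' ω)
    (C := 1) (fun x hx => (hasDerivAt_q ω x (ne_of_gt hx)).hasDerivWithinAt)
    (fun x _ => abs_q'_le ω x h0 h1) (mem_Ioi.2 ht) (mem_Ioi.2 hs)
  simpa using h

theorem lip_q (ω : ℝ) (h0 : 0 ≤ ω) (h1 : ω ≤ 1) (s t : ℝ) : |q ω s - q ω t| ≤ |s - t| := by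
  rcases lt_trichotomy s 0 with hs | hs | hs <;> rcases lt_trichotomy t 0 with ht | ht | ht
  · have h := lip_pos ω h0 h1 (-s) (-t) (by linarith) (by linarith)
    rw [q_neg, q_neg] at h
    rw [show |q ω s - q ω t| = |-q ω s - -q ω t| by rw [← abs_neg]; congr 1; ring,
      show |s - t| = |-s - -t| by rw [← abs_neg]; congr 1; ring]
    exact h
  · subst ht
    rw [q_zero, sub_zero, sub_zero]
    have := abs_q_le ω s
    have := abs_nonneg s
    linarith
  · have a := abs_q_le ω s
    have b := abs_q_le ω t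
    have c := abs_sub (q ω s) (q ω t)
    rw [abs_of_neg (by linarith : s - t < 0)]
    rw [abs_of_neg hs] at a
    rw [abs_of_pos ht] at b
    linarith
  · subst hs
    rw [q_zero, zero_sub, abs_neg, zero_sub, abs_neg]
    have := abs_q_le ω t
    have := abs_nonneg t
    linarith
  · subst hs; subst ht; simp
  · subst hs
    rw [q_zero, zero_sub, abs_neg, zero_sub, abs_neg]
    have := abs_q_le ω t
    have := abs_nonneg t
    linarith
  · have a := abs_q_le ω s
    have b := abs_q_le ω t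
    have c := abs_sub (q ω s) (q ω t)
    rw [abs_of_pos (by linarith : 0 < s - t)]
    rw [abs_of_pos hs] at a
    rw [abs_of_neg ht] at b
    linarith
  · subst ht
    rw [q_zero, sub_zero, sub_zero]
    have := abs_q_le ω s
    have := abs_nonneg s
    linarith
  · exact lip_pos ω h0 h1 s t hs ht

/-- the difference quotient at `0` -/
theorem q_mul (ω t a : ℝ) (ht : 0 < t) (ha : a ≠ 0) :
    t⁻¹ * q ω (t * a) = a * Real.sin (ω * Real.log t + ω * Real.log a) / 2 := by
  unfold q
  rw [Real.log_mul ht.ne' ha, mul_add]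
  field_simp

end Pool.Agent.KS6_53.Gx
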