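import Pool.Agent.KS6_53.Gx.G1
import Pool.Agent.KS6_53.Gx.G2

set_option autoImplicit false
set_option linter.unusedSectionVars false

open Set Filter Topology

namespace Pool.Agent.KS6_53.Gx

/-! ## The nonlinear superposition operator and its directional derivatives -/

/-- A pointwise summable system of rank one operators with labels. -/
structure Sys (X : Type*) [NormedAddCommGroup X] [NormedSpace ℝ X] (Γ : Type*) where
  e : Γ → X
  f : Γ → X →L[ℝ] ℝ
  ω : Γ → ℝ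
  hs : ∀ x, Summable fun γ => f γ x • e γ
  ω_pos : ∀ γ, 0 < ω γ
  ω_le : ∀ γ, ω γ ≤ 1
  C : ℝ
  C_pos : 0 < C
  bound : ∀ (A : Finset Γ) (x : X), ‖∑ γ ∈ A, f γ x • e γ‖ ≤ C * ‖x‖

namespace Sys

variable {X : Type*} [NormedAddCommGroup X] [NormedSpace ℝ X] [CompleteSpace X] {Γ : Type*}
  (S : Sys X Γ)

theorem smb (a : Γ → ℝ) (x : X) (ha : ∀ γ, |a γ| ≤ |S.f γ x|) : Summable fun γ => a γ • S.e γ :=
  summable_of_le S.e (fun γ => S.f γ x) a (S.hs x) ha

theorem nrm (a : Γ → ℝ) (x : X) (ha : ∀ γ, |a γ| ≤ |S.f γ x|) :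
    ‖∑' γ, a γ • S.e γ‖ ≤ 2 * S.C * ‖x‖ := by
  have h := norm_tsum_le S.e (fun γ => S.f γ x) a (S.hs x) ha (S.C * ‖x‖)
    (mul_nonneg S.C_pos.le (norm_nonneg _)) (fun A => S.bound A x)
  linarith

/-- the superposition operator -/
noncomputable def F (x : X) : X := ∑' γ, q (S.ω γ) (S.f γ x) • S.e γ

theorem abs_q_le' (γ : Γ) (x : X) : |q (S.ω γ) (S.f γ x)| ≤ |S.f γ x| := by
  have := abs_q_le (S.ω γ) (S.f γ x)
  have := abs_nonneg (S.f γ x)
  linarith

theorem smb_F (x : X) : Summable fun γ => q (S.ω γ) (S.f γ x) • S.e γ :=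
  S.smb _ x fun γ => S.abs_q_le' γ x

theorem F_sub (x y : X) : S.F x - S.F y =
    ∑' γ, (q (S.ω γ) (S.f γ x) - q (S.ω γ) (S.f γ y)) • S.e γ := by
  unfold F
  rw [← (S.smb_F x).tsum_sub (S.smb_F y)]
  exact tsum_congr fun γ => (sub_smul _ _ _).symm

theorem coef_le (γ : Γ) (x y : X) :
    |q (S.ω γ) (S.f γ x) - q (S.ω γ) (S.f γ y)| ≤ |S.f γ (x - y)| := by
  rw [map_sub]
  exact lip_q _ (S.ω_pos γ).le (S.ω_le γ) _ _

theorem F_lip (x y : X) : ‖S.F x - S.F y‖ ≤ 2 * S.C * ‖x - y‖ := by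
  rw [S.F_sub]
  exact S.nrm _ _ fun γ => S.coef_le γ x y

/-- coefficients of the difference quotient -/
noncomputable def a (x h : X) (t : ℝ) (γ : Γ) : ℝ :=
  t⁻¹ * (q (S.ω γ) (S.f γ (x + t • h)) - q (S.ω γ) (S.f γ x))

theorem a_le (x h : X) (t : ℝ) (γ : Γ) : |S.a x h t γ| ≤ |S.f γ h| := by
  unfold a
  by_cases ht : t = 0
  · rw [ht]; simp
  have h1 := S.coef_le γ (x + t • h) x
  rw [add_sub_cancel_left, map_smul, smul_eq_mul, abs_mul] at h1
  rw [abs_mul, abs_inv]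
  calc |t|⁻¹ * |q (S.ω γ) (S.f γ (x + t • h)) - q (S.ω γ) (S.f γ x)|
      ≤ |t|⁻¹ * (|t| * |S.f γ h|) := by gcongr
    _ = |S.f γ h| := by
        have : |t| ≠ 0 := abs_ne_zero.2 ht
        field_simp

theorem quot_eq (x h : X) (t : ℝ) : t⁻¹ • (S.F (x + t • h) - S.F x) = ∑' γ, S.a x h t γ • S.e γ := by
  rw [S.F_sub, ← tsum_const_smul'']
  exact tsum_congr fun γ => by rw [smul_smul, a]

/-- coefficients of the derivative -/
noncomputable def d (x : X) (γ : Γ) : ℝ := q' (S.ω γ) (S.f γ x)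

theorem d_le (x : X) (γ : Γ) : |S.d x γ| ≤ 1 := abs_q'_le _ _ (S.ω_pos γ).le (S.ω_le γ)

theorem d_mul_le (x h : X) (γ : Γ) : |S.d x γ * S.f γ h| ≤ |S.f γ h| := by
  rw [abs_mul]
  have h1 := S.d_le x γ
  have h2 := abs_nonneg (S.f γ h)
  nlinarith

/-- the derivative operator -/
noncomputable def A (x : X) : X →L[ℝ] X :=
  LinearMap.mkContinuous
    { toFun := fun h => ∑' γ, (S.d x γ * S.f γ h) • S.e γ
      map_add' := fun h k => by
        rw [← (S.smb _ h (S.d_mul_le x h)).tsum_add (S.smb _ k (S.d_mul_le x k))]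
        exact tsum_congr fun γ => by rw [map_add, mul_add, add_smul]
      map_smul' := fun r h => by
        rw [RingHom.id_apply, ← tsum_const_smul'']
        exact tsum_congr fun γ => by rw [map_smul, smul_smul, smul_eq_mul]; ring_nf }
    (2 * S.C) (fun h => S.nrm _ h (S.d_mul_le x h))

theorem A_apply (x h : X) : S.A x h = ∑' γ, (S.d x γ * S.f γ h) • S.e γ := rfl

theorem A_norm (x : X) : ‖S.A x‖ ≤ 2 * S.C :=
  LinearMap.mkContinuous_norm_le _ (mul_nonneg (by norm_num) S.C_pos.le) _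

theorem tendsto_a (x h : X) (γ : Γ) (hγ : S.f γ x = 0 → S.f γ h = 0) :
    Tendsto (fun t => S.a x h t γ) (𝓝[≠] 0) (𝓝 (S.d x γ * S.f γ h)) := by
  by_cases hx : S.f γ x = 0
  · have hh := hγ hx
    have : ∀ t, S.a x h t γ = 0 := by
      intro t
      unfold a
      rw [map_add, map_smul, hx, hh, smul_zero, add_zero, sub_self, mul_zero]
    simp only [this, hh, mul_zero]
    exact tendsto_const_nhds
  · have h1 : HasDerivAt (fun t : ℝ => S.f γ x + t * S.f γ h) (S.f γ h) 0 := by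
      simpa using ((hasDerivAt_id (0:ℝ)).mul_const (S.f γ h)).const_add (S.f γ x)
    have h2 : HasDerivAt (q (S.ω γ)) (q' (S.ω γ) (S.f γ x)) (S.f γ x + 0 * S.f γ h) := by
      rw [zero_mul, add_zero]
      exact hasDerivAt_q _ _ hx
    have h3 := h2.comp (0:ℝ) h1
    have h4 := h3.tendsto_slope_zero
    refine h4.congr fun t => ?_
    simp only [Function.comp, a, zero_add, zero_mul, add_zero, smul_eq_mul, map_add, map_smul]

/-- The two-sided directional derivatives of `F` along the directions supported in the support of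
`x`. -/
theorem F_deriv (x h : X) (hh : ∀ γ, S.f γ x = 0 → S.f γ h = 0) :
    Tendsto (fun t : ℝ => t⁻¹ • (S.F (x + t • h) - S.F x)) (𝓝[≠] 0) (𝓝 (S.A x h)) := by
  simp only [S.quot_eq, S.A_apply]
  exact tendsto_tsum S.e (fun γ => S.f γ h) _ _ (S.hs h) (fun t γ => S.a_le x h t γ)
    (S.d_mul_le x h) (fun γ => S.tendsto_a x h γ (hh γ))

/-- the directions of differentiability at `x` -/
def V (x : X) : Submodule ℝ X where
  carrier := {h | ∀ γ, S.f γ x = 0 → S.f γ h = 0}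
  add_mem' := fun {a b} ha hb γ hγ => by rw [map_add, ha γ hγ, hb γ hγ, add_zero]
  zero_mem' := fun γ _ => map_zero _
  smul_mem' := fun c a ha γ hγ => by rw [map_smul, ha γ hγ, smul_zero]

theorem mem_V (x h : X) : h ∈ S.V x ↔ ∀ γ, S.f γ x = 0 → S.f γ h = 0 := Iff.rfl

theorem isClosed_V (x : X) : IsClosed (S.V x : Set X) := by
  have : (S.V x : Set X) = ⋂ γ, ⋂ (_ : S.f γ x = 0), {h | S.f γ h = 0} := by
    ext h
    simp only [SetLike.mem_coe, mem_V, mem_iInter, mem_ofPred_eq]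
  rw [this]
  exact isClosed_iInter fun γ => isClosed_iInter fun _ =>
    isClosed_eq (S.f γ).continuous continuous_const

/-! ### The homeomorphism -/

variable (c : ℝ) (hc : 0 < c) (hc1 : c * (2 * S.C) < 1)

/-- `x ↦ x + c F x` -/
noncomputable def φ₀ (x : X) : X := x + c • S.F x

theorem φ₀_sub (x y : X) : (S.φ₀ c x - x) - (S.φ₀ c y - y) = c • (S.F x - S.F y) := by
  unfold φ₀; rw [smul_sub]; abel

theorem φ₀_lip (hc : 0 < c) (x y : X) :
    ‖(S.φ₀ c x - x) - (S.φ₀ c y - y)‖ ≤ c * (2 * S.C) * ‖x - y‖ := by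
  rw [S.φ₀_sub, norm_smul, Real.norm_eq_abs, abs_of_pos hc, mul_assoc]
  exact mul_le_mul_of_nonneg_left (S.F_lip x y) hc.le

theorem exists_homeo (hc : 0 < c) (hc1 : c * (2 * S.C) < 1) :
    ∃ φ : X ≃ₜ X, ∀ x, φ x = S.φ₀ c x := by
  have hC := S.C_pos
  have h : ApproximatesLinearOn (S.φ₀ c) ((ContinuousLinearEquiv.refl ℝ X : X ≃L[ℝ] X) : X →L[ℝ] X)
      univ ⟨c * (2 * S.C), by positivity⟩ := by
    intro x _ y _
    have h1 := S.φ₀_lip c hc x y
    simp only [ContinuousLinearEquiv.coe_refl, ContinuousLinearMap.coe_id', id]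
    have h2 : S.φ₀ c x - S.φ₀ c y - (x - y) = (S.φ₀ c x - x) - (S.φ₀ c y - y) := by abel
    rw [h2]
    exact h1
  have hn : Subsingleton X ∨ (⟨c * (2 * S.C), by positivity⟩ : NNReal) <
      ‖((ContinuousLinearEquiv.refl ℝ X).symm : X →L[ℝ] X)‖₊⁻¹ := by
    rcases subsingleton_or_nontrivial X with hX | hX
    · exact Or.inl hX
    · right
      have : ‖((ContinuousLinearEquiv.refl ℝ X).symm : X →L[ℝ] X)‖₊ = 1 := by
        rw [ContinuousLinearEquiv.refl_symm, ContinuousLinearEquiv.coe_refl]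
        exact ContinuousLinearMap.nnnorm_id
      rw [this, inv_one]
      exact_mod_cast hc1
  exact ⟨h.toHomeomorph _ hn, fun x => rfl⟩

end Sys

end Pool.Agent.KS6_53.Gx
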