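import Mathlib

set_option autoImplicit false
set_option linter.unusedSectionVars false

open Set Filter Topology

namespace Pool.Agent.KS6_53.Gx

/-! ## Cesaro means of characters -/

theorem cesaro_char (z : ℂ) (h1 : ‖z‖ = 1) (hz : z ≠ 1) :
    Tendsto (fun N : ℕ => ((N:ℝ)⁻¹ : ℝ) • ∑ n ∈ Finset.range N, z ^ n) atTop (𝓝 0) := by
  have hz' : z - 1 ≠ 0 := sub_ne_zero.2 hz
  refine squeeze_zero_norm (a := fun N : ℕ => (N:ℝ)⁻¹ * (2 / ‖z - 1‖)) (fun N => ?_) ?_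
  · rw [norm_smul, geom_sum_eq hz, norm_div, norm_inv, Real.norm_eq_abs, Nat.abs_cast]
    have : ‖z ^ N - 1‖ ≤ 2 := by
      refine (norm_sub_le _ _).trans ?_
      rw [norm_pow, h1, one_pow, norm_one]
      norm_num
    gcongr
  · have := tendsto_inv_atTop_nhds_zero_nat (𝕜 := ℝ)
    simpa using this.mul_const (2 / ‖z - 1‖)

theorem cesaro_mul (u : ℕ → ℂ) (L : ℂ) (hu : Tendsto u atTop (𝓝 L)) (z : ℂ) (h1 : ‖z‖ = 1)
    (hz : z ≠ 1) :
    Tendsto (fun N : ℕ => ((N:ℝ)⁻¹ : ℝ) • ∑ n ∈ Finset.range N, u n * z ^ n) atTop (𝓝 0) := by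
  have h2 : Tendsto (fun n => (u n - L) * z ^ n) atTop (𝓝 0) := by
    refine squeeze_zero_norm (a := fun n => ‖u n - L‖) (fun n => ?_) ?_
    · rw [norm_mul, norm_pow, h1, one_pow, mul_one]
    · have := (hu.sub_const L).norm
      simpa using this
  have h3 := h2.cesaro_smul
  have h4 := (cesaro_char z h1 hz).const_mul L
  rw [mul_zero] at h4
  have h5 := h3.add h4
  rw [add_zero] at h5
  refine h5.congr fun N => ?_
  rw [mul_smul_comm, ← smul_add, Finset.mul_sum, ← Finset.sum_add_distrib]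
  congr 1
  refine Finset.sum_congr rfl fun n _ => ?_
  ring

theorem exp_ne_one (r : ℝ) (h0 : r ≠ 0) (h1 : |r| ≤ 2) : Complex.exp (r * Complex.I) ≠ 1 := by
  intro h
  rw [Complex.exp_eq_one_iff] at h
  obtain ⟨n, hn⟩ := h
  have h2 : r = n * (2 * Real.pi) := by
    have h3 : (r : ℂ) = n * (2 * Real.pi) := by
      have : (r : ℂ) * Complex.I = (n * (2 * Real.pi)) * Complex.I := by rw [hn]; ring
      exact mul_right_cancel₀ Complex.I_ne_zero this
    exact_mod_cast h3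
  have hn0 : n ≠ 0 := by
    rintro rfl
    rw [Int.cast_zero, zero_mul] at h2
    exact h0 h2
  have h4 : (1:ℝ) ≤ |(n:ℝ)| := by
    exact_mod_cast Int.one_le_abs hn0
  have h5 : |r| = |(n:ℝ)| * (2 * Real.pi) := by
    rw [h2, abs_mul, abs_of_pos (by positivity : (0:ℝ) < 2 * Real.pi)]
  have := Real.pi_gt_three
  nlinarith

theorem norm_exp_I (r : ℝ) : ‖Complex.exp (r * Complex.I)‖ = 1 := Complex.norm_exp_ofReal_mul_I r

/-- Cesaro means of `sin (θ - ω n) e^{i ν n}`. -/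
theorem cesaro_sin_same (θ ν : ℝ) (h0 : 0 < ν) (h1 : ν ≤ 1) :
    Tendsto (fun N : ℕ => ((N:ℝ)⁻¹ : ℝ) • ∑ n ∈ Finset.range N,
      ((Real.sin (ν * (-(n:ℝ)) + θ) : ℝ) : ℂ) * (Complex.exp (ν * Complex.I)) ^ n) atTop
      (𝓝 (Complex.exp (θ * Complex.I) * (-Complex.I / 2))) := by
  have hA : ∀ n : ℕ, ((Real.sin (ν * (-(n:ℝ)) + θ) : ℝ) : ℂ) * (Complex.exp (ν * Complex.I)) ^ n =
      Complex.exp (θ * Complex.I) * (-Complex.I / 2) +
      (Complex.exp (-(θ * Complex.I)) * (Complex.I / 2)) *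
        (Complex.exp (((2 * ν : ℝ) : ℂ) * Complex.I)) ^ n := by
    intro n
    rw [Complex.ofReal_sin, Complex.sin, ← Complex.exp_nat_mul, ← Complex.exp_nat_mul]
    push_cast
    have e1 : Complex.exp (-((ν:ℂ) * -(n:ℂ) + θ) * Complex.I) =
      Complex.exp (-(θ * Complex.I)) * Complex.exp ((n:ℂ) * ((ν:ℂ) * Complex.I)) := by
      rw [← Complex.exp_add]; congr 1; ring
    have e2 : Complex.exp (((ν:ℂ) * -(n:ℂ) + θ) * Complex.I) * Complex.exp ((n:ℂ) * ((ν:ℂ) * Complex.I)) =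
      Complex.exp (θ * Complex.I) := by
      rw [← Complex.exp_add]; congr 1; ring
    have e3 : Complex.exp ((n:ℂ) * (2 * (ν:ℂ) * Complex.I)) =
      Complex.exp ((n:ℂ) * ((ν:ℂ) * Complex.I)) * Complex.exp ((n:ℂ) * ((ν:ℂ) * Complex.I)) := by
      rw [← Complex.exp_add]; congr 1; ring
    rw [e1, e3, ← e2]
    ring
  simp only [hA]
  have h2 := cesaro_char (Complex.exp (((2 * ν : ℝ) : ℂ) * Complex.I)) (norm_exp_I _)
    (exp_ne_one _ (by positivity) (by rw [abs_of_pos (by positivity)]; linarith))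
  have h3 := (h2.const_mul (Complex.exp (-(θ * Complex.I)) * (Complex.I / 2)))
  rw [mul_zero] at h3
  have h4 : Tendsto (fun N : ℕ => ((N:ℝ)⁻¹ : ℝ) • ∑ n ∈ Finset.range N,
      Complex.exp (θ * Complex.I) * (-Complex.I / 2)) atTop
      (𝓝 (Complex.exp (θ * Complex.I) * (-Complex.I / 2))) :=
    (tendsto_const_nhds (x := Complex.exp (θ * Complex.I) * (-Complex.I / 2))).cesaro_smul
  have h5 := h4.add h3
  rw [add_zero] at h5
  refine h5.congr fun N => ?_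
  rw [Finset.sum_add_distrib, smul_add, mul_smul_comm, Finset.mul_sum]

theorem cesaro_sin_diff (θ ν ω : ℝ) (h0 : 0 < ν) (h1 : ν ≤ 1) (h2 : 0 < ω) (h3 : ω ≤ 1)
    (hne : ω ≠ ν) :
    Tendsto (fun N : ℕ => ((N:ℝ)⁻¹ : ℝ) • ∑ n ∈ Finset.range N,
      ((Real.sin (ω * (-(n:ℝ)) + θ) : ℝ) : ℂ) * (Complex.exp (ν * Complex.I)) ^ n) atTop
      (𝓝 0) := by
  have hA : ∀ n : ℕ, ((Real.sin (ω * (-(n:ℝ)) + θ) : ℝ) : ℂ) * (Complex.exp (ν * Complex.I)) ^ n =
      Complex.exp (θ * Complex.I) * (-Complex.I / 2) *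
        (Complex.exp (((ν - ω : ℝ) : ℂ) * Complex.I)) ^ n +
      (Complex.exp (-(θ * Complex.I)) * (Complex.I / 2)) *
        (Complex.exp (((ν + ω : ℝ) : ℂ) * Complex.I)) ^ n := by
    intro n
    rw [Complex.ofReal_sin, Complex.sin, ← Complex.exp_nat_mul, ← Complex.exp_nat_mul,
      ← Complex.exp_nat_mul]
    push_cast
    have e1 : Complex.exp (-((ω:ℂ) * -(n:ℂ) + θ) * Complex.I) =
      Complex.exp (-(θ * Complex.I)) * Complex.exp ((n:ℂ) * ((ω:ℂ) * Complex.I)) := by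
      rw [← Complex.exp_add]; congr 1; ring
    have e2 : Complex.exp (((ω:ℂ) * -(n:ℂ) + θ) * Complex.I) =
      Complex.exp (θ * Complex.I) * Complex.exp (-((n:ℂ) * ((ω:ℂ) * Complex.I))) := by
      rw [← Complex.exp_add]; congr 1; ring
    have e3 : Complex.exp ((n:ℂ) * (((ν:ℂ) - ω) * Complex.I)) =
      Complex.exp ((n:ℂ) * ((ν:ℂ) * Complex.I)) * Complex.exp (-((n:ℂ) * ((ω:ℂ) * Complex.I))) := by
      rw [← Complex.exp_add]; congr 1; ring
    have e4 : Complex.exp ((n:ℂ) * (((ν:ℂ) + ω) * Complex.I)) =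
      Complex.exp ((n:ℂ) * ((ν:ℂ) * Complex.I)) * Complex.exp ((n:ℂ) * ((ω:ℂ) * Complex.I)) := by
      rw [← Complex.exp_add]; congr 1; ring
    rw [e1, e2, e3, e4]
    ring
  simp only [hA]
  have h4 := cesaro_char (Complex.exp (((ν - ω : ℝ) : ℂ) * Complex.I)) (norm_exp_I _)
    (exp_ne_one _ (sub_ne_zero.2 (Ne.symm hne)) (by rw [abs_le]; constructor <;> linarith))
  have h5 := cesaro_char (Complex.exp (((ν + ω : ℝ) : ℂ) * Complex.I)) (norm_exp_I _)
    (exp_ne_one _ (by positivity) (by rw [abs_of_pos (by positivity)]; linarith))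
  have h6 := (h4.const_mul (Complex.exp (θ * Complex.I) * (-Complex.I / 2))).add
    (h5.const_mul (Complex.exp (-(θ * Complex.I)) * (Complex.I / 2)))
  rw [mul_zero, mul_zero, add_zero] at h6
  refine h6.congr fun N => ?_
  rw [Finset.sum_add_distrib, smul_add, ← Finset.mul_sum, ← Finset.mul_sum, mul_smul_comm,
    mul_smul_comm]

end Pool.Agent.KS6_53.Gx
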