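import Pool.Agent.KS6_53.Gx.G3
import Pool.Agent.KS6_53.Gx.G4

set_option autoImplicit false
set_option linter.unusedSectionVars false

open Set Filter Topology

namespace Pool.Agent.KS6_53.Gx

theorem tendsto_exp_neg : Tendsto (fun n : ℕ => Real.exp (-(n:ℝ))) atTop (𝓝[>] 0) := by
  rw [tendsto_nhdsWithin_iff]
  refine ⟨?_, Eventually.of_forall fun n => Real.exp_pos _⟩
  exact Real.tendsto_exp_neg_atTop_nhds_zero.comp tendsto_natCast_atTop_atTop

namespace Sys

variable {X : Type*} [NormedAddCommGroup X] [NormedSpace ℝ X] [CompleteSpace X] {Γ : Type*}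
  (S : Sys X Γ)

theorem summable_weights (h : X) (g : X →L[ℝ] ℝ) :
    Summable fun γ => |S.f γ h| * |g (S.e γ)| := by
  have h1 : Summable fun γ => g (S.f γ h • S.e γ) := (S.hs h).mapL g
  have h2 := h1.abs
  refine h2.congr fun γ => ?_
  rw [map_smul, smul_eq_mul, abs_mul]

theorem g_quot (x h : X) (g : X →L[ℝ] ℝ) (t : ℝ) :
    g (t⁻¹ • (S.F (x + t • h) - S.F x)) = ∑' γ, S.a x h t γ * g (S.e γ) := by
  rw [S.quot_eq, g.map_tsum (S.smb _ h (S.a_le x h t))]
  exact tsum_congr fun γ => by rw [map_smul, smul_eq_mul]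

theorem a_active (x h : X) (γ : Γ) (hx : S.f γ x = 0) (hh : S.f γ h ≠ 0) (n : ℕ) :
    S.a x h (Real.exp (-(n:ℝ))) γ =
      S.f γ h / 2 * Real.sin (S.ω γ * (-(n:ℝ)) + S.ω γ * Real.log (S.f γ h)) := by
  unfold a
  rw [map_add, map_smul, hx, zero_add, q_zero, sub_zero, smul_eq_mul, q_mul _ _ _ (Real.exp_pos _) hh,
    Real.log_exp]
  ring

/-- If the `β`-coordinate vanishes at `x` but not at `h`, then no weak one-sided derivative. -/
theorem no_limit (x h : X) (β : Γ) (hx : S.f β x = 0) (hh : S.f β h ≠ 0)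
    (g : X →L[ℝ] ℝ) (hg : g (S.e β) ≠ 0) (hgo : ∀ γ, γ ≠ β → S.ω γ = S.ω β → g (S.e γ) = 0) :
    ¬ ∃ l : ℝ, Tendsto (fun t : ℝ => g (t⁻¹ • (S.F (x + t • h) - S.F x))) (𝓝[>] 0) (𝓝 l) := by
  classical
  rintro ⟨l, hl⟩
  set z : ℂ := Complex.exp (S.ω β * Complex.I) with hz
  have hz1 : ‖z‖ = 1 := norm_exp_I _
  have hzne : z ≠ 1 := exp_ne_one _ (S.ω_pos β).ne' (by
    rw [abs_of_pos (S.ω_pos β)]; have := S.ω_le β; linarith)
  set T : ℕ → ℝ := fun n => Real.exp (-(n:ℝ)) with hT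
  have hT0 : Tendsto T atTop (𝓝[>] 0) := tendsto_exp_neg
  have hTne : Tendsto T atTop (𝓝[≠] 0) := hT0.mono_right (nhdsWithin_mono _ fun t ht => ne_of_gt ht)
  have hG := hl.comp hT0
  -- Cesaro means of the whole sum
  have hces : Tendsto (fun N : ℕ => ((N:ℝ)⁻¹ : ℝ) • ∑ n ∈ Finset.range N,
      ((g ((T n)⁻¹ • (S.F (x + T n • h) - S.F x)) : ℝ) : ℂ) * z ^ n) atTop (𝓝 0) := by
    refine cesaro_mul _ (l : ℂ) ?_ z hz1 hzne
    exact (Complex.continuous_ofReal.tendsto l).comp hG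
  -- termwise
  set term : ℕ → Γ → ℂ := fun N γ => ((N:ℝ)⁻¹ : ℝ) • ∑ n ∈ Finset.range N,
      ((S.a x h (T n) γ * g (S.e γ) : ℝ) : ℂ) * z ^ n with hterm
  set m : Γ → ℂ := fun γ => if γ = β then
      ((S.f β h / 2 * g (S.e β) : ℝ) : ℂ) *
        (Complex.exp ((S.ω β * Real.log (S.f β h) : ℝ) * Complex.I) * (-Complex.I / 2)) else 0 with hm
  have hlim : ∀ γ, Tendsto (fun N => term N γ) atTop (𝓝 (m γ)) := by
    intro γ
    by_cases hγx : S.f γ x = 0 → S.f γ h = 0
    · have hγβ : γ ≠ β := by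
        rintro rfl
        exact hh (hγx hx)
      simp only [hm, if_neg hγβ]
      have h1 := (S.tendsto_a x h γ hγx).comp hTne
      have h2 : Tendsto (fun n => ((S.a x h (T n) γ * g (S.e γ) : ℝ) : ℂ)) atTop
          (𝓝 ((S.d x γ * S.f γ h * g (S.e γ) : ℝ) : ℂ)) :=
        (Complex.continuous_ofReal.tendsto _).comp (h1.mul_const (g (S.e γ)))
      exact cesaro_mul _ _ h2 z hz1 hzne
    · have hγ0 : S.f γ x = 0 := by by_contra h0; exact hγx fun h1 => absurd h1 h0
      have hγh : S.f γ h ≠ 0 := fun h0 => hγx fun _ => h0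
      have h3 : ∀ n : ℕ, ((S.a x h (T n) γ * g (S.e γ) : ℝ) : ℂ) * z ^ n =
          ((S.f γ h / 2 * g (S.e γ) : ℝ) : ℂ) *
          (((Real.sin (S.ω γ * (-(n:ℝ)) + S.ω γ * Real.log (S.f γ h)) : ℝ) : ℂ) * z ^ n) := by
        intro n
        rw [hT]
        simp only []
        rw [S.a_active x h γ hγ0 hγh n]
        push_cast
        ring
      simp only [hterm, h3, ← Finset.mul_sum]
      by_cases hω : S.ω γ = S.ω β
      · by_cases hγβ : γ = β
        · subst hγβ
          simp only [hm, if_true]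
          have h4 := (cesaro_sin_same (S.ω γ * Real.log (S.f γ h)) (S.ω γ) (S.ω_pos γ)
            (S.ω_le γ)).const_mul ((S.f γ h / 2 * g (S.e γ) : ℝ) : ℂ)
          refine h4.congr fun N => ?_
          rw [mul_smul_comm]
        · have h5 := hgo γ hγβ hω
          simp only [hm, if_neg hγβ, h5, mul_zero, Complex.ofReal_zero, zero_mul, smul_zero]
          exact tendsto_const_nhds
      · have hγβ : γ ≠ β := fun h0 => hω (by rw [h0])
        simp only [hm, if_neg hγβ]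
        have h4 := (cesaro_sin_diff (S.ω γ * Real.log (S.f γ h)) (S.ω β) (S.ω γ) (S.ω_pos β)
          (S.ω_le β) (S.ω_pos γ) (S.ω_le γ) hω).const_mul ((S.f γ h / 2 * g (S.e γ) : ℝ) : ℂ)
        rw [mul_zero] at h4
        refine h4.congr fun N => ?_
        rw [mul_smul_comm]
  have hbd : ∀ N γ, ‖term N γ‖ ≤ |S.f γ h| * |g (S.e γ)| := by
    intro N γ
    simp only [hterm]
    rw [norm_smul, norm_inv, Real.norm_eq_abs, Nat.abs_cast]
    have h1 : ‖∑ n ∈ Finset.range N, ((S.a x h (T n) γ * g (S.e γ) : ℝ) : ℂ) * z ^ n‖ ≤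
        ∑ n ∈ Finset.range N, |S.f γ h| * |g (S.e γ)| := by
      refine norm_sum_le_of_le _ fun n _ => ?_
      rw [norm_mul, norm_pow, hz1, one_pow, mul_one, Complex.norm_real, Real.norm_eq_abs, abs_mul]
      exact mul_le_mul_of_nonneg_right (S.a_le x h _ γ) (abs_nonneg _)
    rw [Finset.sum_const, Finset.card_range, nsmul_eq_mul] at h1
    have hpos : 0 ≤ |S.f γ h| * |g (S.e γ)| := by positivity
    rcases Nat.eq_zero_or_pos N with hN | hN
    · subst hN; simpa using hpos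
    · have hN' : (0:ℝ) < N := by exact_mod_cast hN
      calc (N:ℝ)⁻¹ * _ ≤ (N:ℝ)⁻¹ * (N * (|S.f γ h| * |g (S.e γ)|)) := by gcongr
        _ = |S.f γ h| * |g (S.e γ)| := by field_simp
  have hsum := tendsto_tsum_of_dominated_convergence (S.summable_weights h g) hlim
    (Eventually.of_forall hbd)
  have hex : ∀ N, ∑' γ, term N γ = ((N:ℝ)⁻¹ : ℝ) • ∑ n ∈ Finset.range N,
      ((g ((T n)⁻¹ • (S.F (x + T n • h) - S.F x)) : ℝ) : ℂ) * z ^ n := by
    intro N
    have hsm : ∀ n, Summable fun γ => ((S.a x h (T n) γ * g (S.e γ) : ℝ) : ℂ) * z ^ n := by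
      intro n
      refine Summable.mul_right _ ?_
      refine Summable.of_norm_bounded (S.summable_weights h g) fun γ => ?_
      rw [Complex.norm_real, Real.norm_eq_abs, abs_mul]
      exact mul_le_mul_of_nonneg_right (S.a_le x h _ γ) (abs_nonneg _)
    simp only [hterm]
    rw [tsum_const_smul'', Summable.tsum_finsetSum fun n _ => hsm n]
    congr 1
    refine Finset.sum_congr rfl fun n _ => ?_
    rw [tsum_mul_right, S.g_quot, Complex.ofReal_tsum]
  simp only [hex] at hsum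
  have huniq := tendsto_nhds_unique hsum hces
  rw [hm, tsum_ite_eq] at huniq
  have h1 : ((S.f β h / 2 * g (S.e β) : ℝ) : ℂ) ≠ 0 := by
    rw [Complex.ofReal_ne_zero]
    exact mul_ne_zero (div_ne_zero hh two_ne_zero) hg
  have h2 : Complex.exp ((S.ω β * Real.log (S.f β h) : ℝ) * Complex.I) * (-Complex.I / 2) ≠ 0 :=
    mul_ne_zero (Complex.exp_ne_zero _) (div_ne_zero (neg_ne_zero.2 Complex.I_ne_zero) two_ne_zero)
  exact mul_ne_zero h1 h2 huniq

end Sys

end Pool.Agent.KS6_53.Gx
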