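import Pool.Agent.KS6_53.Gx.G5

set_option autoImplicit false
set_option linter.unusedSectionVars false

open Set Filter Topology

namespace Pool.Agent.KS6_53.Gx

section Inv

variable {X : Type*} [NormedAddCommGroup X] [NormedSpace ℝ X]

/-- Transfer of directional derivatives to the inverse map. -/
theorem inv_deriv (ψ : X ≃ X) (K : ℝ) (hK : ∀ x y, ‖x - y‖ ≤ K * ‖ψ x - ψ y‖)
    (l : Filter ℝ) (hl : ∀ᶠ t in l, t ≠ 0) (x h k : X)
    (H : Tendsto (fun t : ℝ => t⁻¹ • (ψ (x + t • h) - ψ x)) l (𝓝 k)) :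
    Tendsto (fun t : ℝ => t⁻¹ • (ψ.symm (ψ x + t • k) - x)) l (𝓝 h) := by
  rw [tendsto_iff_norm_sub_tendsto_zero] at H ⊢
  have h1 : Tendsto (fun t : ℝ => K * ‖t⁻¹ • (ψ (x + t • h) - ψ x) - k‖) l (𝓝 0) := by
    simpa using H.const_mul K
  refine squeeze_zero' (Eventually.of_forall fun _ => norm_nonneg _) ?_ h1
  filter_upwards [hl] with t ht
  have h2 : t⁻¹ • (ψ.symm (ψ x + t • k) - x) - h = t⁻¹ • (ψ.symm (ψ x + t • k) - (x + t • h)) := by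
    rw [smul_sub, smul_sub, smul_add, smul_smul, inv_mul_cancel₀ ht, one_smul]
    abel
  have h3 := hK (ψ.symm (ψ x + t • k)) (x + t • h)
  rw [Equiv.apply_symm_apply] at h3
  have h4 : ψ x + t • k - ψ (x + t • h) = -(t • (t⁻¹ • (ψ (x + t • h) - ψ x) - k)) := by
    rw [smul_sub, smul_smul, mul_inv_cancel₀ ht, one_smul]
    abel
  rw [h4, norm_neg, norm_smul] at h3
  rw [h2, norm_smul, norm_inv]
  have h5 : 0 < ‖t‖ := norm_pos_iff.2 ht
  calc ‖t‖⁻¹ * ‖ψ.symm (ψ x + t • k) - (x + t • h)‖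
      ≤ ‖t‖⁻¹ * (K * (‖t‖ * ‖t⁻¹ • (ψ (x + t • h) - ψ x) - k‖)) := by gcongr
    _ = K * ‖t⁻¹ • (ψ (x + t • h) - ψ x) - k‖ := by field_simp

/-- Quotients with uncountably many independent functionals are nonseparable. -/
theorem nonsep_quot {Γ : Type*} (V : Submodule ℝ X) (f : Γ → X →L[ℝ] ℝ) (Δ : Set Γ)
    (hΔ : ¬ Δ.Countable) (hf : ∀ γ ∈ Δ, f γ ≠ 0) (hV : ∀ γ ∈ Δ, ∀ h ∈ V, f γ h = 0)
    (hc : ∀ x, {γ ∈ Δ | f γ x ≠ 0}.Countable) : ¬ TopologicalSpace.SeparableSpace (X ⧸ V) := by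
  intro hsep
  obtain ⟨s, hs, hd⟩ := TopologicalSpace.exists_countable_dense (X ⧸ V)
  have h1 : ∀ z : X ⧸ V, ∃ r : X, V.mkQ r = z := V.mkQ_surjective
  choose r hr using h1
  have h2 : (⋃ z ∈ s, {γ ∈ Δ | f γ (r z) ≠ 0}).Countable := hs.biUnion fun z _ => hc (r z)
  have h3 : ∃ γ ∈ Δ, γ ∉ ⋃ z ∈ s, {γ ∈ Δ | f γ (r z) ≠ 0} := by
    by_contra h
    push Not at h
    exact hΔ (h2.mono h)
  obtain ⟨γ, hγ, hγn⟩ := h3
  have h4 : ∀ z ∈ s, f γ (r z) = 0 := by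
    intro z hz
    by_contra h
    exact hγn (mem_biUnion hz ⟨hγ, h⟩)
  have hle : V ≤ LinearMap.ker (f γ : X →ₗ[ℝ] ℝ) := fun h hh => by
    rw [LinearMap.mem_ker]; exact hV γ hγ h hh
  let F : X ⧸ V →ₗ[ℝ] ℝ := V.liftQ (f γ : X →ₗ[ℝ] ℝ) hle
  have hF : ∀ x, F (V.mkQ x) = f γ x := fun x => rfl
  have hFc : Continuous F := by
    have hq : IsQuotientMap (V.mkQ : X → X ⧸ V) := V.isOpenQuotientMap_mkQ.isQuotientMap
    rw [hq.continuous_iff]
    exact (f γ).continuous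
  have h5 : F = 0 := by
    have h6 : (F : X ⧸ V → ℝ) = fun _ => 0 := by
      refine Continuous.ext_on hd hFc continuous_const fun z hz => ?_
      rw [← hr z, hF]
      exact h4 z hz
    ext x
    simpa using congrFun h6 (V.mkQ x)
  refine hf γ hγ ?_
  ext x
  rw [← hF x, h5]
  rfl

theorem sep_quot_map (V : Submodule ℝ X) (D : X ≃L[ℝ] X)
    (h : TopologicalSpace.SeparableSpace (X ⧸ V.map (D : X →ₗ[ℝ] X))) :
    TopologicalSpace.SeparableSpace (X ⧸ V) := by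
  set W := V.map (D : X →ₗ[ℝ] X) with hW
  have hle : W ≤ LinearMap.ker (V.mkQ ∘ₗ (D.symm : X →ₗ[ℝ] X)) := by
    rintro _ ⟨v, hv, rfl⟩
    rw [LinearMap.mem_ker, LinearMap.comp_apply]
    have : (D.symm : X →ₗ[ℝ] X) ((D : X →ₗ[ℝ] X) v) = v := D.symm_apply_apply v
    rw [this]
    exact (Submodule.Quotient.mk_eq_zero V).2 hv
  let F : X ⧸ W →ₗ[ℝ] X ⧸ V := W.liftQ (V.mkQ ∘ₗ (D.symm : X →ₗ[ℝ] X)) hle
  have hF : ∀ x, F (W.mkQ x) = V.mkQ (D.symm x) := fun x => rfl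
  have hFc : Continuous F := by
    have hq : IsQuotientMap (W.mkQ : X → X ⧸ W) := W.isOpenQuotientMap_mkQ.isQuotientMap
    rw [hq.continuous_iff]
    exact (V.isOpenQuotientMap_mkQ.continuous).comp D.symm.continuous
  have hFs : Function.Surjective F := by
    intro z
    obtain ⟨x, rfl⟩ := V.mkQ_surjective z
    exact ⟨W.mkQ (D x), by rw [hF, ContinuousLinearEquiv.symm_apply_apply]⟩
  exact hFs.denseRange.separableSpace hFc

end Inv

namespace Sys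

variable {X : Type*} [NormedAddCommGroup X] [NormedSpace ℝ X] [CompleteSpace X] {Γ : Type*}
  (S : Sys X Γ) (c : ℝ)

theorem cA_norm (hc : 0 < c) (hc1 : c * (2 * S.C) < 1) (x : X) : ‖-(c • S.A x)‖ < 1 := by
  rw [norm_neg, norm_smul, Real.norm_eq_abs, abs_of_pos hc]
  exact lt_of_le_of_lt (mul_le_mul_of_nonneg_left (S.A_norm x) hc.le) hc1

/-- the derivative of `φ` at `x` -/
noncomputable def D (hc : 0 < c) (hc1 : c * (2 * S.C) < 1) (x : X) : X ≃L[ℝ] X :=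
  ContinuousLinearEquiv.unitsEquiv ℝ X (Units.oneSub (-(c • S.A x)) (S.cA_norm c hc hc1 x))

theorem D_apply (hc : 0 < c) (hc1 : c * (2 * S.C) < 1) (x h : X) :
    S.D c hc hc1 x h = h + c • S.A x h := by
  have : S.D c hc hc1 x h = ((Units.oneSub (-(c • S.A x)) (S.cA_norm c hc hc1 x) : (X →L[ℝ] X)ˣ) :
      X →L[ℝ] X) h := rfl
  rw [this, Units.val_oneSub, sub_neg_eq_add]
  rfl

theorem quot_φ (x h : X) (t : ℝ) (ht : t ≠ 0) :
    t⁻¹ • (S.φ₀ c (x + t • h) - S.φ₀ c x) = h + c • (t⁻¹ • (S.F (x + t • h) - S.F x)) := by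
  unfold φ₀
  have : x + t • h + c • S.F (x + t • h) - (x + c • S.F x) =
      t • h + c • (S.F (x + t • h) - S.F x) := by rw [smul_sub]; abel
  rw [this, smul_add, smul_smul, inv_mul_cancel₀ ht, one_smul, smul_comm]

theorem φ_deriv (hc : 0 < c) (hc1 : c * (2 * S.C) < 1) (x h : X) (hh : h ∈ S.V x) :
    Tendsto (fun t : ℝ => t⁻¹ • (S.φ₀ c (x + t • h) - S.φ₀ c x)) (𝓝[≠] 0)
      (𝓝 (S.D c hc hc1 x h)) := by
  rw [S.D_apply]
  have h1 := ((S.F_deriv x h hh).const_smul c).const_add h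
  refine h1.congr' ?_
  filter_upwards [self_mem_nhdsWithin] with t ht
  rw [S.quot_φ c x h t ht]

theorem φ_no_limit (hc : 0 < c) (x h : X) (β : Γ) (hx : S.f β x = 0) (hh : S.f β h ≠ 0)
    (g : X →L[ℝ] ℝ) (hg : g (S.e β) ≠ 0) (hgo : ∀ γ, γ ≠ β → S.ω γ = S.ω β → g (S.e γ) = 0) :
    ¬ ∃ l : ℝ, Tendsto (fun t : ℝ => g (t⁻¹ • (S.φ₀ c (x + t • h) - S.φ₀ c x))) (𝓝[>] 0) (𝓝 l) := by
  rintro ⟨l, hl⟩
  refine S.no_limit x h β hx hh g hg hgo ⟨c⁻¹ * (l - g h), ?_⟩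
  have h1 := (hl.sub_const (g h)).const_mul c⁻¹
  refine h1.congr' ?_
  filter_upwards [self_mem_nhdsWithin] with t ht
  rw [S.quot_φ c x h t (ne_of_gt ht), map_add, map_smul, add_sub_cancel_left, smul_eq_mul,
    ← mul_assoc, inv_mul_cancel₀ hc.ne', one_mul]

end Sys

end Pool.Agent.KS6_53.Gx
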