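import Pool.Agent.KS6_53.Gx.G6

set_option autoImplicit false
set_option linter.unusedSectionVars false

open Set Filter Topology

namespace Pool.Agent.KS6_53.Gx

theorem norm_bounds {X : Type*} [NormedAddCommGroup X] [NormedSpace ℝ X] (φ : X → X) (ε : ℝ)
    (h : ∀ x y, ‖(φ x - x) - (φ y - y)‖ ≤ ε * ‖x - y‖) (x y : X) :
    (1 - ε) * ‖x - y‖ ≤ ‖φ x - φ y‖ ∧ ‖φ x - φ y‖ ≤ (1 + ε) * ‖x - y‖ := by
  have h1 := h x y
  have h2 : φ x - φ y = (x - y) + ((φ x - x) - (φ y - y)) := by abel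
  constructor
  · have h3 : ‖x - y‖ ≤ ‖φ x - φ y‖ + ‖(φ x - x) - (φ y - y)‖ := by
      have : x - y = (φ x - φ y) - ((φ x - x) - (φ y - y)) := by abel
      calc ‖x - y‖ = ‖(φ x - φ y) - ((φ x - x) - (φ y - y))‖ := by rw [← this]
        _ ≤ _ := norm_sub_le _ _
    linarith
  · calc ‖φ x - φ y‖ = ‖(x - y) + ((φ x - x) - (φ y - y))‖ := by rw [← h2]
      _ ≤ ‖x - y‖ + ‖(φ x - x) - (φ y - y)‖ := norm_add_le _ _
      _ ≤ _ := by linarith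

namespace Sys

variable {X : Type*} [NormedAddCommGroup X] [NormedSpace ℝ X] [CompleteSpace X] {Γ : Type*}
  (S : Sys X Γ)

theorem exists_c (ε : ℝ) (hε : 0 < ε) :
    ∃ c : ℝ, 0 < c ∧ c ≤ 1 / 2 ∧ c * (2 * S.C) < 1 ∧ c * (2 * S.C) ≤ ε := by
  have hC := S.C_pos
  refine ⟨min (min ε (1/2) / (2 * S.C)) (1/2), ?_, min_le_right _ _, ?_, ?_⟩
  · refine lt_min (div_pos (lt_min hε (by norm_num)) (by positivity)) (by norm_num)
  · have h1 : min (min ε (1/2) / (2 * S.C)) (1/2) * (2 * S.C) ≤ min ε (1/2) / (2 * S.C) * (2 * S.C) :=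
      mul_le_mul_of_nonneg_right (min_le_left _ _) (by positivity)
    rw [div_mul_cancel₀ _ (by positivity : (2 * S.C) ≠ 0)] at h1
    have h2 : min ε (1/2) ≤ (1/2 : ℝ) := min_le_right _ _
    linarith
  · have h1 : min (min ε (1/2) / (2 * S.C)) (1/2) * (2 * S.C) ≤ min ε (1/2) / (2 * S.C) * (2 * S.C) :=
      mul_le_mul_of_nonneg_right (min_le_left _ _) (by positivity)
    rw [div_mul_cancel₀ _ (by positivity : (2 * S.C) ≠ 0)] at h1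
    exact h1.trans (min_le_left _ _)

/-- Everything about the map `φ`. -/
theorem main (hP : ∀ β, ∃ g : X →L[ℝ] ℝ, g (S.e β) ≠ 0 ∧
      ∀ γ, γ ≠ β → S.ω γ = S.ω β → g (S.e γ) = 0) (ε : ℝ) (hε : 0 < ε) :
    ∃ (φ : X ≃ₜ X) (c : ℝ), 0 < c ∧ c ≤ 1 / 2 ∧ (∀ x, φ x = x + c • S.F x) ∧
      (∀ x y, ‖(φ x - x) - (φ y - y)‖ ≤ ε * ‖x - y‖) ∧
      ∀ x, ∃ D : X ≃L[ℝ] X, (∀ h, D h = h + c • S.A x h) ∧
        (∀ h ∈ S.V x, ∃ v, Tendsto (fun t : ℝ => t⁻¹ • (φ (x + t • h) - φ x)) (𝓝[≠] 0) (𝓝 v)) ∧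
        (∀ h, h ∉ S.V x → ∃ g : X →L[ℝ] ℝ,
          ¬ ∃ l : ℝ, Tendsto (fun t : ℝ => g (t⁻¹ • (φ (x + t • h) - φ x))) (𝓝[>] 0) (𝓝 l)) ∧
        (∀ k ∈ (S.V x).map (D : X →ₗ[ℝ] X), ∃ v,
          Tendsto (fun t : ℝ => t⁻¹ • (φ.symm (φ x + t • k) - φ.symm (φ x))) (𝓝[≠] 0) (𝓝 v)) ∧
        (∀ k, k ∉ (S.V x).map (D : X →ₗ[ℝ] X) → ¬ ∃ v,
          Tendsto (fun t : ℝ => t⁻¹ • (φ.symm (φ x + t • k) - φ.symm (φ x))) (𝓝[>] 0) (𝓝 v)) := by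
  obtain ⟨c, hc, hc2, hc1, hcε⟩ := S.exists_c ε hε
  obtain ⟨φ, hφ⟩ := S.exists_homeo c hc hc1
  have hφe : (φ : X → X) = S.φ₀ c := funext hφ
  have hlip : ∀ x y, ‖(φ x - x) - (φ y - y)‖ ≤ c * (2 * S.C) * ‖x - y‖ := by
    intro x y
    rw [hφ, hφ]
    exact S.φ₀_lip c hc x y
  have hb := norm_bounds φ _ hlip
  set δ := c * (2 * S.C) with hδ
  have hδ0 : 0 < δ := mul_pos hc (mul_pos two_pos S.C_pos)
  have hK1 : ∀ x y, ‖x - y‖ ≤ (1 - δ)⁻¹ * ‖φ x - φ y‖ := by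
    intro x y
    rw [inv_mul_eq_div, le_div_iff₀ (by linarith), mul_comm]
    exact (hb x y).1
  have hK2 : ∀ x y, ‖x - y‖ ≤ (1 + δ) * ‖φ.symm x - φ.symm y‖ := by
    intro x y
    have := (hb (φ.symm x) (φ.symm y)).2
    rwa [φ.apply_symm_apply, φ.apply_symm_apply] at this
  refine ⟨φ, c, hc, hc2, hφ, fun x y => (hlip x y).trans
    (mul_le_mul_of_nonneg_right hcε (norm_nonneg _)), fun x => ?_⟩
  refine ⟨S.D c hc hc1 x, S.D_apply c hc hc1 x, ?_, ?_, ?_, ?_⟩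
  · intro h hh
    refine ⟨S.D c hc hc1 x h, ?_⟩
    rw [hφe]
    exact S.φ_deriv c hc hc1 x h hh
  · intro h hh
    rw [S.mem_V] at hh
    push Not at hh
    obtain ⟨β, hβx, hβh⟩ := hh
    obtain ⟨g, hg, hgo⟩ := hP β
    refine ⟨g, ?_⟩
    rw [hφe]
    exact S.φ_no_limit c hc x h β hβx hβh g hg hgo
  · rintro _ ⟨h, hh, rfl⟩
    refine ⟨h, ?_⟩
    have h1 := S.φ_deriv c hc hc1 x h hh
    rw [← hφe] at h1
    have h2 := inv_deriv φ.toEquiv _ hK1 (𝓝[≠] 0) self_mem_nhdsWithin x h _ h1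
    rw [φ.symm_apply_apply]
    exact h2
  · rintro k hk ⟨h, hh⟩
    have hh' : Tendsto (fun t : ℝ => t⁻¹ • (φ.toEquiv.symm (φ x + t • k) - φ.toEquiv.symm (φ x)))
      (𝓝[>] 0) (𝓝 h) := hh
    have hne : ∀ᶠ t : ℝ in 𝓝[>] 0, t ≠ 0 := by
      filter_upwards [self_mem_nhdsWithin] with t ht using ne_of_gt ht
    have h2 := inv_deriv φ.toEquiv.symm _ hK2 (𝓝[>] 0) hne (φ x) k h hh'
    have h3 : Tendsto (fun t : ℝ => t⁻¹ • (φ (x + t • h) - φ x)) (𝓝[>] 0) (𝓝 k) := by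
      have e1 : φ.toEquiv.symm (φ x) = x := φ.symm_apply_apply x
      rw [e1] at h2
      exact h2
    by_cases hhV : h ∈ S.V x
    · have h4 := (S.φ_deriv c hc hc1 x h hhV).mono_left
        (nhdsWithin_mono (0:ℝ) (s := Ioi 0) (t := {0}ᶜ) fun t ht => ne_of_gt ht)
      rw [← hφe] at h4
      have h5 := tendsto_nhds_unique h3 h4
      exact hk ⟨h, hhV, h5.symm⟩
    · rw [S.mem_V] at hhV
      push Not at hhV
      obtain ⟨β, hβx, hβh⟩ := hhV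
      obtain ⟨g, hg, hgo⟩ := hP β
      refine S.φ_no_limit c hc x h β hβx hβh g hg hgo ⟨g k, ?_⟩
      rw [← hφe]
      exact (g.continuous.tendsto k).comp h3

end Sys

/-! ## Choosing the labels -/

theorem exists_labels {Γ : Type*} (s : Set Γ) (hs : ¬ s.Countable) :
    ∃ Δ ⊆ s, ¬ Δ.Countable ∧ ∃ ω : Δ → ℝ, (∀ γ, 0 < ω γ ∧ ω γ ≤ 1) ∧ Function.Injective ω := by
  have h1 : Cardinal.aleph 1 ≤ Cardinal.mk s := by
    rw [← Cardinal.succ_aleph0, Order.succ_le_iff]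
    exact Cardinal.aleph0_lt_mk_iff.2 (by
      by_contra h
      rw [not_uncountable_iff] at h
      exact hs (Set.countable_coe_iff.1 h))
  obtain ⟨Δ, hΔs, hΔ⟩ := Cardinal.le_mk_iff_exists_subset.1 h1
  refine ⟨Δ, hΔs, ?_, ?_⟩
  · intro h
    have h2 := Cardinal.mk_le_aleph0_iff.2 (Set.countable_coe_iff.2 h)
    rw [hΔ, ← Cardinal.succ_aleph0] at h2
    exact absurd h2 (not_le.2 (Order.lt_succ _))
  · have h3 : Cardinal.lift.{0} (Cardinal.mk Δ) ≤ Cardinal.lift (Cardinal.mk (Set.Ioc (0:ℝ) 1)) := by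
      rw [hΔ, Cardinal.mk_Ioc_real one_pos, Cardinal.lift_continuum, Cardinal.lift_aleph]
      simpa using Cardinal.aleph_one_le_continuum
    obtain ⟨i⟩ := Cardinal.lift_mk_le'.1 h3
    exact ⟨fun γ => (i γ : ℝ), fun γ => (i γ).2, fun γ γ' h => i.injective (Subtype.ext h)⟩

end Pool.Agent.KS6_53.Gx
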