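import Pool.Agent.KS6_53.Gx.G7
import Pool.Agent.KS6_53.Gx.Defs

set_option autoImplicit false
set_option linter.unusedSectionVars false

open Set Filter Topology

namespace Pool.Agent.KS6_53.Gx

theorem nearId_of {X : Type*} [NormedAddCommGroup X] [NormedSpace ℝ X] {φ : X → X} {ε : ℝ}
    (h : ∀ x y, ‖(φ x - x) - (φ y - y)‖ ≤ ε * ‖x - y‖) : NearId ε φ :=
  ⟨h, norm_bounds φ ε h⟩

section A

variable {X E Γ : Type*} [NormedAddCommGroup X] [NormedSpace ℝ X] [CompleteSpace X]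
  [NormedAddCommGroup E] [NormedSpace ℝ E]

theorem isSeparable_of_countable (b : UnconditionalSchauderBasis Γ ℝ E) (T : X →L[ℝ] E)
    (J : E →L[ℝ] X) (h : {γ | J (b γ) ≠ 0 ∧ (b.coord γ).comp T ≠ 0}.Countable) :
    TopologicalSpace.IsSeparable (Set.range fun x => J (T x)) := by
  set s := {γ | J (b γ) ≠ 0 ∧ (b.coord γ).comp T ≠ 0} with hs
  have h1 : TopologicalSpace.IsSeparable
      (Submodule.span ℝ ((fun γ => J (b γ)) '' s) : Set X) :=
    (h.image _).isSeparable.span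
  refine h1.closure.mono ?_
  rintro _ ⟨x, rfl⟩
  have h2 : HasSum (fun γ => J (b.coord γ (T x) • b γ)) (J (T x)) := (b.expansion (T x)).mapL J
  refine mem_closure_of_tendsto h2 (Eventually.of_forall fun A => ?_)
  refine Submodule.sum_mem _ fun γ _ => ?_
  rw [map_smul]
  by_cases hγ : γ ∈ s
  · exact Submodule.smul_mem _ _ (Submodule.subset_span ⟨γ, hγ, rfl⟩)
  · rw [hs, mem_ofPred_eq, not_and_or, not_not, not_not] at hγ
    rcases hγ with hγ | hγ
    · rw [hγ, smul_zero]; exact Submodule.zero_mem _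
    · have : b.coord γ (T x) = 0 := by
        have := congrArg (fun g : X →L[ℝ] ℝ => g x) hγ
        exact this
      rw [this, zero_smul]; exact Submodule.zero_mem _

/-- the label system attached to a factorisation -/
theorem exists_sys (b : UnconditionalSchauderBasis Γ ℝ E) (T : X →L[ℝ] E)
    (J : E →L[ℝ] X) (hsep : ¬ TopologicalSpace.IsSeparable (Set.range fun x => J (T x))) :
    ∃ (Δ : Set Γ) (S : Sys X Δ), ¬ Δ.Countable ∧ Function.Injective S.ω ∧
      (∀ γ, S.e γ ≠ 0) ∧ ∀ γ, S.f γ ≠ 0 := by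
  have h1 : ¬ {γ | J (b γ) ≠ 0 ∧ (b.coord γ).comp T ≠ 0}.Countable := fun h =>
    hsep (isSeparable_of_countable b T J h)
  obtain ⟨Δ, hΔ, hΔc, ω, hω, hinj⟩ := exists_labels _ h1
  have hsum : ∀ x, Summable fun γ : Δ => ((b.coord γ).comp T) x • J (b γ) := by
    intro x
    have h2 : Summable (fun γ => J (b.coord γ (T x) • b γ)) :=
      ((b.expansion (T x)).mapL J).summable
    have h3 := h2.subtype Δ
    refine h3.congr fun γ => ?_
    simp only [Function.comp, map_smul]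
    rfl
  obtain ⟨C, hC, hCb⟩ := exists_bound (fun γ : Δ => J (b γ)) (fun γ : Δ => (b.coord γ).comp T) hsum
  exact ⟨Δ, ⟨fun γ => J (b γ), fun γ => (b.coord γ).comp T, ω, hsum, fun γ => (hω γ).1,
    fun γ => (hω γ).2, C, hC, hCb⟩, hΔc, hinj, fun γ => (hΔ γ.2).1, fun γ => (hΔ γ.2).2⟩

theorem Sys.countable_support (S : Sys X Γ) (he : ∀ γ, S.e γ ≠ 0) (x : X) :
    {γ | S.f γ x ≠ 0}.Countable := by
  refine (S.hs x).countable_support.mono fun γ hγ => ?_
  rw [Function.mem_support]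
  exact smul_ne_zero hγ (he γ)

theorem Sys.nonsep_V (S : Sys X Γ) (hΓ : Uncountable Γ) (he : ∀ γ, S.e γ ≠ 0)
    (hf : ∀ γ, S.f γ ≠ 0) (x : X) : ¬ TopologicalSpace.SeparableSpace (X ⧸ S.V x) := by
  refine nonsep_quot (S.V x) S.f {γ | S.f γ x = 0} ?_ (fun γ _ => hf γ)
    (fun γ hγ h hh => hh γ hγ) (fun z => (S.countable_support he z).mono fun γ hγ => hγ.2)
  intro hc
  have h1 := hc.union (S.countable_support he x)
  have h2 : {γ | S.f γ x = 0} ∪ {γ | S.f γ x ≠ 0} = univ := by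
    ext γ
    simp only [mem_union, mem_ofPred_eq, mem_univ, iff_true]
    exact em _
  rw [h2, Set.countable_univ_iff] at h1
  exact not_countable h1

theorem partA (b : UnconditionalSchauderBasis Γ ℝ E) (T : X →L[ℝ] E)
    (J : E →L[ℝ] X) (hsep : ¬ TopologicalSpace.IsSeparable (Set.range fun x => J (T x)))
    (ε : ℝ) (hε : 0 < ε) :
    ∃ φ : X ≃ₜ X, NearId ε φ ∧
      (∀ x, ∃ V : Submodule ℝ X, IsClosed (V : Set X) ∧ ¬ TopologicalSpace.SeparableSpace (X ⧸ V) ∧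
        ∀ h, (h ∈ V → DirDiff φ x h) ∧ (h ∉ V → ¬ WeakRightDiff φ x h)) ∧
      (∀ y, ∃ W : Submodule ℝ X, IsClosed (W : Set X) ∧ ¬ TopologicalSpace.SeparableSpace (X ⧸ W) ∧
        ∀ h, (h ∈ W → DirDiff φ.symm y h) ∧ (h ∉ W → ¬ RightDiff φ.symm y h)) := by
  obtain ⟨Δ, S, hΔ, hinj, he, hf⟩ := exists_sys b T J hsep
  have hunc : Uncountable Δ := by
    rw [← not_countable_iff]
    exact fun h => hΔ (Set.countable_coe_iff.1 h)
  have hP : ∀ β, ∃ g : X →L[ℝ] ℝ, g (S.e β) ≠ 0 ∧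
      ∀ γ, γ ≠ β → S.ω γ = S.ω β → g (S.e γ) = 0 := by
    intro β
    obtain ⟨g, _, hg⟩ := exists_dual_vector ℝ (S.e β) (norm_ne_zero_iff.2 (he β))
    refine ⟨g, ?_, fun γ hγ h => absurd (hinj h) hγ⟩
    rw [hg]
    simpa using he β
  obtain ⟨φ, c, hc, _, _, hlip, hmain⟩ := S.main hP ε hε
  refine ⟨φ, nearId_of hlip, fun x => ?_, fun y => ?_⟩
  · obtain ⟨D, _, h1, h2, _, _⟩ := hmain x
    refine ⟨S.V x, S.isClosed_V x, S.nonsep_V hunc he hf x, fun h => ⟨h1 h, fun hh hw => ?_⟩⟩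
    obtain ⟨g, hg⟩ := h2 h hh
    exact hg (hw g)
  · obtain ⟨D, _, _, _, h3, h4⟩ := hmain (φ.symm y)
    rw [φ.apply_symm_apply] at h3 h4
    refine ⟨(S.V (φ.symm y)).map (D : X →ₗ[ℝ] X), ?_, ?_, fun k => ⟨h3 k, h4 k⟩⟩
    · have : ((S.V (φ.symm y)).map (D : X →ₗ[ℝ] X) : Set X) = D '' (S.V (φ.symm y) : Set X) := by
        rw [Submodule.map_coe]; rfl
      rw [this]
      exact D.toHomeomorph.isClosedMap _ (S.isClosed_V _)
    · intro hs
      exact S.nonsep_V hunc he hf (φ.symm y) (sep_quot_map _ D hs)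

end A

end Pool.Agent.KS6_53.Gx
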