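import Pool.Agent.KS6_53.Gx.G8

set_option autoImplicit false
set_option linter.unusedSectionVars false

open Set Filter Topology

namespace Pool.Agent.KS6_53.Gx

section B

variable {X E Γ : Type*} [NormedAddCommGroup X] [NormedSpace ℝ X] [CompleteSpace X]
  [NormedAddCommGroup E] [NormedSpace ℝ E]

theorem coord_same (b : UnconditionalSchauderBasis Γ ℝ E) (β : Γ) : b.coord β (b β) = 1 := by
  classical
  rw [b.ortho, Pi.single_eq_same]

theorem coord_ne (b : UnconditionalSchauderBasis Γ ℝ E) (γ β : Γ) (h : γ ≠ β) :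
    b.coord γ (b β) = 0 := by
  classical
  rw [b.ortho, Pi.single_eq_of_ne h]

theorem mem_suppSpan (b : UnconditionalSchauderBasis Γ ℝ E) (z w : E) :
    w ∈ suppSpan b z ↔ ∀ γ, b.coord γ z = 0 → b.coord γ w = 0 := by
  classical
  constructor
  · intro hw γ hγ
    have h1 : IsClosed {w : E | b.coord γ w = 0} :=
      isClosed_eq (b.coord γ).continuous continuous_const
    have h2 : (Submodule.span ℝ {v | ∃ γ, b.coord γ z ≠ 0 ∧ v = b γ} : Set E) ⊆
        {w : E | b.coord γ w = 0} := by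
      intro v hv
      have h3 : Submodule.span ℝ {v | ∃ γ, b.coord γ z ≠ 0 ∧ v = b γ} ≤
          LinearMap.ker (b.coord γ : E →ₗ[ℝ] ℝ) := by
        rw [Submodule.span_le]
        rintro _ ⟨β, hβ, rfl⟩
        rw [SetLike.mem_coe, LinearMap.mem_ker]
        exact coord_ne b γ β (by rintro rfl; exact hβ hγ)
      exact h3 hv
    exact closure_minimal h2 h1 hw
  · intro hw
    refine mem_closure_of_tendsto (b.expansion w) (Eventually.of_forall fun A => ?_)
    refine Submodule.sum_mem _ fun γ _ => ?_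
    by_cases hγ : b.coord γ z = 0
    · rw [hw γ hγ, zero_smul]; exact Submodule.zero_mem _
    · exact Submodule.smul_mem _ _ (Submodule.subset_span ⟨γ, hγ, rfl⟩)

theorem isSeparable_suppSpan (b : UnconditionalSchauderBasis Γ ℝ E) (z : E) :
    TopologicalSpace.IsSeparable (suppSpan b z : Set E) := by
  have h0 : {γ | b.coord γ z ≠ 0}.Countable := by
    refine (b.expansion z).summable.countable_support.mono fun γ hγ => ?_
    rw [Function.mem_support]
    exact smul_ne_zero hγ (b.linearIndependent.ne_zero γ)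
  have h1 : {v | ∃ γ, b.coord γ z ≠ 0 ∧ v = b γ}.Countable := by
    have : {v | ∃ γ, b.coord γ z ≠ 0 ∧ v = b γ} = (fun γ => b γ) '' {γ | b.coord γ z ≠ 0} := by
      ext v
      constructor
      · rintro ⟨γ, h, rfl⟩; exact ⟨γ, h, rfl⟩
      · rintro ⟨γ, h, rfl⟩; exact ⟨γ, h, rfl⟩
    rw [this]
    exact h0.image _
  exact h1.isSeparable.span.closure

/-- the system attached to a complemented subspace with an unconditional basis -/
theorem exists_sysB (b : UnconditionalSchauderBasis Γ ℝ E) (T : X →L[ℝ] E)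
    (J : E →L[ℝ] X) :
    ∃ S : Sys X Γ, (∀ γ, S.e γ = J (b γ)) ∧ (∀ γ, S.f γ = (b.coord γ).comp T) ∧ ∀ γ, S.ω γ = 1 := by
  have hsum : ∀ x, Summable fun γ : Γ => ((b.coord γ).comp T) x • J (b γ) := by
    intro x
    have h2 : Summable (fun γ => J (b.coord γ (T x) • b γ)) :=
      ((b.expansion (T x)).mapL J).summable
    refine h2.congr fun γ => ?_
    simp only [map_smul]
    rfl
  obtain ⟨C, hC, hCb⟩ := exists_bound (fun γ : Γ => J (b γ)) (fun γ : Γ => (b.coord γ).comp T) hsum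
  exact ⟨⟨fun γ => J (b γ), fun γ => (b.coord γ).comp T, fun _ => 1, hsum, fun _ => one_pos,
    fun _ => le_rfl, C, hC, hCb⟩, fun _ => rfl, fun _ => rfl, fun _ => rfl⟩

/-- the one-dimensional map -/
noncomputable def kap (c s : ℝ) : ℝ := s + c * q 1 s

theorem kap_inj (c : ℝ) (hc : 0 < c) (hc2 : c ≤ 1 / 2) : Function.Injective (kap c) := by
  intro s t h
  unfold kap at h
  have h1 := lip_q 1 zero_le_one le_rfl s t
  have h2 : s - t = -(c * (q 1 s - q 1 t)) := by linarith
  have h3 : |s - t| = c * |q 1 s - q 1 t| := by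
    rw [h2, abs_neg, abs_mul, abs_of_pos hc]
  have h4 := abs_nonneg (s - t)
  have h5 : |s - t| = 0 := by nlinarith
  exact sub_eq_zero.1 (abs_eq_zero.1 h5)

theorem kap_val (c a r : ℝ) (ha : a ≠ 0) (n : ℕ) :
    kap c (a * |a|⁻¹ * Real.exp (r - n * (2 * Real.pi))) =
      a * (|a|⁻¹ * Real.exp (r - n * (2 * Real.pi)) * (1 + c * Real.sin r / 2)) := by
  have hlog : Real.log (a * |a|⁻¹ * Real.exp (r - n * (2 * Real.pi))) = r - n * (2 * Real.pi) := by
    rcases lt_or_gt_of_ne ha with h | h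
    · rw [abs_of_neg h]
      have : a * (-a)⁻¹ = -1 := by field_simp
      rw [this, neg_one_mul, Real.log_neg_eq_log, Real.log_exp]
    · rw [abs_of_pos h, mul_inv_cancel₀ ha, one_mul, Real.log_exp]
  unfold kap q
  rw [hlog, one_mul, Real.sin_sub_nat_mul_two_pi]
  ring

theorem no_limit_aux (c : ℝ) (hc : 0 < c) (hc2 : c ≤ 1 / 2) (a : ℝ) (ha : a ≠ 0) (s : ℝ → ℝ)
    (hs : ∀ t, kap c (s t) = t * a) :
    ¬ ∃ l : ℝ, Tendsto (fun t => t⁻¹ * s t) (𝓝[>] 0) (𝓝 l) := by
  rintro ⟨l, hl⟩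
  have key : ∀ r : ℝ, l = a / (1 + c * Real.sin r / 2) := by
    intro r
    have hpos : 0 < 1 + c * Real.sin r / 2 := by
      have h1 := Real.neg_one_le_sin r
      nlinarith
    set t : ℕ → ℝ := fun n => |a|⁻¹ * Real.exp (r - n * (2 * Real.pi)) * (1 + c * Real.sin r / 2)
      with ht
    have htpos : ∀ n, 0 < t n := fun n =>
      mul_pos (mul_pos (inv_pos.2 (abs_pos.2 ha)) (Real.exp_pos _)) hpos
    have ht0 : Tendsto t atTop (𝓝[>] 0) := by
      rw [tendsto_nhdsWithin_iff]
      refine ⟨?_, Eventually.of_forall fun n => htpos n⟩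
      have h1 : Tendsto (fun n : ℕ => (n:ℝ) * (2 * Real.pi) - r) atTop atTop :=
        tendsto_atTop_add_const_right _ _
          (tendsto_natCast_atTop_atTop.atTop_mul_const (by positivity))
      have h2 := (Real.tendsto_exp_neg_atTop_nhds_zero.comp h1)
      have h3 := (h2.const_mul |a|⁻¹).mul_const (1 + c * Real.sin r / 2)
      rw [mul_zero, zero_mul] at h3
      refine h3.congr fun n => ?_
      simp only [Function.comp, ht, neg_sub]
    have hst : ∀ n, s (t n) = a * |a|⁻¹ * Real.exp (r - n * (2 * Real.pi)) := by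
      intro n
      apply kap_inj c hc hc2
      rw [hs, kap_val c a r ha n, ht]
      ring
    have h4 : ∀ n, (t n)⁻¹ * s (t n) = a / (1 + c * Real.sin r / 2) := by
      intro n
      have h5 : a * |a|⁻¹ * Real.exp (r - n * (2 * Real.pi)) =
          t n * (a / (1 + c * Real.sin r / 2)) := by
        have h7 : (1 + c * Real.sin r / 2) * (a / (1 + c * Real.sin r / 2)) = a :=
          mul_div_cancel₀ a hpos.ne'
        simp only [ht]
        rw [mul_assoc (|a|⁻¹ * _), h7]
        ring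
      rw [hst, h5, ← mul_assoc, inv_mul_cancel₀ (htpos n).ne', one_mul]
    have h6 := hl.comp ht0
    refine tendsto_nhds_unique h6 ?_
    simp only [Function.comp_def, h4]
    exact tendsto_const_nhds
  have h1 := key 0
  have h2 := key (Real.pi / 2)
  rw [Real.sin_zero, mul_zero, zero_div, add_zero, div_one] at h1
  rw [Real.sin_pi_div_two, mul_one, h1, eq_div_iff (by positivity)] at h2
  have : a * (c / 2) = 0 := by linarith
  exact mul_ne_zero ha (by positivity) this

/-- **Complemented subspaces with an unconditional basis.** -/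
theorem partB (b : UnconditionalSchauderBasis Γ ℝ E) (T : X →L[ℝ] E) (J : E →L[ℝ] X)
    (hTJ : ∀ z, T (J z) = z) (ε : ℝ) (hε : 0 < ε) :
    ∃ φ : X ≃ₜ X, NearId ε φ ∧ ∀ ψ : X → X, (ψ = φ ∨ ψ = φ.symm) → ∀ x h : X,
      (T h ∈ suppSpan b (T x) → DirDiff ψ x h) ∧
      (T h ∉ suppSpan b (T x) → ¬ WeakRightDiff ψ x h) := by
  obtain ⟨S, hSe, hSf, hSω⟩ := exists_sysB b T J
  have hf : ∀ γ x, S.f γ x = b.coord γ (T x) := fun γ x => by rw [hSf]; rfl
  have hfe : ∀ γ, S.f γ (S.e γ) = 1 := fun γ => by rw [hSe, hf, hTJ, coord_same]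
  have hfne : ∀ γ β, γ ≠ β → S.f γ (S.e β) = 0 := fun γ β h => by rw [hSe, hf, hTJ, coord_ne _ _ _ h]
  have hmem : ∀ x h, T h ∈ suppSpan b (T x) ↔ h ∈ S.V x := by
    intro x h
    rw [mem_suppSpan, S.mem_V]
    simp only [hf]
  have hP : ∀ β, ∃ g : X →L[ℝ] ℝ, g (S.e β) ≠ 0 ∧
      ∀ γ, γ ≠ β → S.ω γ = S.ω β → g (S.e γ) = 0 := by
    intro β
    refine ⟨S.f β, ?_, fun γ hγ _ => hfne β γ (Ne.symm hγ)⟩
    rw [hfe]; exact one_ne_zero
  obtain ⟨φ, c, hc, hc2, hφ, hlip, hmain⟩ := S.main hP ε hε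
  -- coordinates of a superposition
  have hcoord : ∀ (a : Γ → ℝ) (x : X), (∀ γ, |a γ| ≤ |S.f γ x|) → ∀ β,
      S.f β (∑' γ, a γ • S.e γ) = a β := by
    intro a x ha β
    rw [(S.f β).map_tsum (S.smb a x ha), tsum_eq_single β]
    · rw [map_smul, hfe, smul_eq_mul, mul_one]
    · intro γ hγ
      rw [map_smul, hfne β γ (Ne.symm hγ), smul_zero]
  have hφc : ∀ β x, S.f β (φ x) = kap c (S.f β x) := by
    intro β x
    rw [hφ, map_add, map_smul]
    unfold Sys.F
    rw [hcoord _ x (fun γ => S.abs_q_le' γ x), hSω, smul_eq_mul]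
    rfl
  have hkap0 : kap c 0 = 0 := by unfold kap; rw [q_zero]; ring
  have hφ0 : ∀ β x, S.f β (φ x) = 0 ↔ S.f β x = 0 := by
    intro β x
    rw [hφc]
    constructor
    · intro h
      exact kap_inj c hc hc2 (h.trans hkap0.symm)
    · intro h; rw [h, hkap0]
  refine ⟨φ, nearId_of hlip, fun ψ hψ => ?_⟩
  rcases hψ with hψ | hψ
  · subst hψ
    intro x h
    obtain ⟨D, _, h1, h2, _, _⟩ := hmain x
    rw [hmem]
    refine ⟨h1 h, fun hh hw => ?_⟩
    obtain ⟨g, hg⟩ := h2 h hh
    exact hg (hw g)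
  · subst hψ
    intro y k
    obtain ⟨D, hD, _, _, h3, _⟩ := hmain (φ.symm y)
    rw [φ.apply_symm_apply] at h3
    have hVy : ∀ h, h ∈ S.V y ↔ h ∈ S.V (φ.symm y) := by
      intro h
      rw [S.mem_V, S.mem_V]
      have : ∀ γ, S.f γ y = 0 ↔ S.f γ (φ.symm y) = 0 := by
        intro γ
        rw [← hφ0 γ (φ.symm y), φ.apply_symm_apply]
      simp only [this]
    rw [hmem]
    constructor
    · intro hk
      refine h3 k ⟨D.symm k, ?_, D.apply_symm_apply k⟩
      rw [SetLike.mem_coe, S.mem_V]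
      intro γ hγ
      have hk' : S.f γ k = 0 := ((hVy k).1 hk) γ hγ
      have h4 : S.f γ (D (D.symm k)) = (1 + c * S.d (φ.symm y) γ) * S.f γ (D.symm k) := by
        rw [hD, map_add, map_smul, S.A_apply, hcoord _ (D.symm k) (S.d_mul_le _ _), smul_eq_mul]
        ring
      rw [D.apply_symm_apply, hk'] at h4
      have h5 : 1 + c * S.d (φ.symm y) γ ≠ 0 := by
        have := abs_le.1 (S.d_le (φ.symm y) γ)
        nlinarith [this.1]
      rcases mul_eq_zero.1 h4.symm with h6 | h6
      · exact absurd h6 h5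
      · exact h6
    · intro hk hw
      rw [S.mem_V] at hk
      push Not at hk
      obtain ⟨β, hβy, hβk⟩ := hk
      have hβx : S.f β (φ.symm y) = 0 := by
        rw [← hφ0 β (φ.symm y), φ.apply_symm_apply]; exact hβy
      obtain ⟨l, hl⟩ := hw (S.f β)
      refine no_limit_aux c hc hc2 (S.f β k) hβk (fun t => S.f β (φ.symm (y + t • k))) (fun t => ?_)
        ⟨l, ?_⟩
      · rw [← hφc, φ.apply_symm_apply, map_add, hβy, zero_add, map_smul, smul_eq_mul]
      · refine hl.congr fun t => ?_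
        rw [map_smul, map_sub, hβx, sub_zero, smul_eq_mul]

end B

end Pool.Agent.KS6_53.Gx
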